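import Pool.Agent.Lib.BL0.Data
import Pool.Agent.Lib.BMM.Fin

/-!
# BL0.Main: the level zero for all `0 < l ≤ 3672 / 10000` and the radius `BMM.RR l`
-/

set_option autoImplicit false

open Pool.Agent.P187w Pool.Agent.BMM

namespace Pool.Agent.BL0

namespace MainAux

theorem chord_le {n1 n2 M1 M2 l n m : ℝ} (hn : n1 < n2) (hM : M2 ≤ M1) (h : n ≤ 1024 * l)
    (hm : (M1 + (M2 - M1) * ((n - n1) / (n2 - n1))) / 2 ^ 24 ≤ m) : chord n1 n2 M1 M2 l ≤ m := by
  refine le_trans ?_ hm
  unfold chord
  apply div_le_div_of_nonneg_right _ (by positivity)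
  have h1 : (n - n1) / (n2 - n1) ≤ (1024 * l - n1) / (n2 - n1) :=
    div_le_div_of_nonneg_right (by linarith) (by linarith)
  have := mul_le_mul_of_nonpos_left h1 (show M2 - M1 ≤ 0 by linarith)
  linarith

theorem r0 {l : ℝ} (h1 : 0 / 8192 < l) (h2 : l ≤ 816 / 8192) : RR l ≤ 46343 / 65536 := by
  rcases le_or_gt l (26 / 1024) with g0 | g0
  · rw [RR_0 (by linarith) (by linarith)]
    exact chord_le (n := 0) (by norm_num) (by norm_num) (by linarith) (by norm_num)
  rcases le_or_gt l (51 / 1024) with g1 | g1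
  · rw [RR_1 (by linarith) (by linarith)]
    exact chord_le (n := 26) (by norm_num) (by norm_num) (by linarith) (by norm_num)
  rcases le_or_gt l (77 / 1024) with g2 | g2
  · rw [RR_2 (by linarith) (by linarith)]
    exact chord_le (n := 51) (by norm_num) (by norm_num) (by linarith) (by norm_num)
  rw [RR_3 (by linarith) (by linarith)]
  exact chord_le (n := 77) (by norm_num) (by norm_num) (by linarith) (by norm_num)

theorem r1 {l : ℝ} (h1 : 816 / 8192 < l) (h2 : l ≤ 1432 / 8192) : RR l ≤ 44041 / 65536 := by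
  rcases le_or_gt l (128 / 1024) with g4 | g4
  · rw [RR_4 (by linarith) (by linarith)]
    exact chord_le (n := 102) (by norm_num) (by norm_num) (by linarith) (by norm_num)
  rcases le_or_gt l (154 / 1024) with g5 | g5
  · rw [RR_5 (by linarith) (by linarith)]
    exact chord_le (n := 128) (by norm_num) (by norm_num) (by linarith) (by norm_num)
  rw [RR_6 (by linarith) (by linarith)]
  exact chord_le (n := 154) (by norm_num) (by norm_num) (by linarith) (by norm_num)

theorem r2 {l : ℝ} (h1 : 1432 / 8192 < l) (h2 : l ≤ 1840 / 8192) : RR l ≤ 42324 / 65536 := by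
  rcases le_or_gt l (205 / 1024) with g7 | g7
  · rw [RR_7 (by linarith) (by linarith)]
    exact chord_le (n := 179) (by norm_num) (by norm_num) (by linarith) (by norm_num)
  rw [RR_8 (by linarith) (by linarith)]
  exact chord_le (n := 205) (by norm_num) (by norm_num) (by linarith) (by norm_num)

theorem r3 {l : ℝ} (h1 : 1840 / 8192 < l) (h2 : l ≤ 2048 / 8192) : RR l ≤ 41194 / 65536 := by
  rw [RR_9 (by linarith) (by linarith)]
  exact chord_le (n := 230) (by norm_num) (by norm_num) (by linarith) (by norm_num)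

theorem r4 {l : ℝ} (h1 : 2048 / 8192 < l) (h2 : l ≤ 2256 / 8192) : RR l ≤ 40617 / 65536 := by
  rw [RR_10 (by linarith) (by linarith)]
  exact chord_le (n := 256) (by norm_num) (by norm_num) (by linarith) (by norm_num)

theorem r5 {l : ℝ} (h1 : 2256 / 8192 < l) (h2 : l ≤ 2456 / 8192) : RR l ≤ 40036 / 65536 := by
  rw [RR_11 (by linarith) (by linarith)]
  exact chord_le (n := 282) (by norm_num) (by norm_num) (by linarith) (by norm_num)

theorem r6 {l : ℝ} (h1 : 2456 / 8192 < l) (h2 : l ≤ 2584 / 8192) : RR l ≤ 39468 / 65536 := by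
  rw [RR_12 (by linarith) (by linarith)]
  exact chord_le (n := 307) (by norm_num) (by norm_num) (by linarith) (by norm_num)

theorem r7 {l : ℝ} (h1 : 2584 / 8192 < l) (h2 : l ≤ 2692 / 8192) : RR l ≤ 39098 / 65536 := by
  rw [RR_13 (by linarith) (by linarith)]
  exact chord_le (n := 323) (by norm_num) (by norm_num) (by linarith) (by norm_num)

theorem r8 {l : ℝ} (h1 : 2692 / 8192 < l) (h2 : l ≤ 2704 / 8192) : RR l ≤ 38781 / 65536 := by
  rw [RR_13 (by linarith) (by linarith)]
  exact chord_le (n := 673/2) (by norm_num) (by norm_num) (by linarith) (by norm_num)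

theorem r9 {l : ℝ} (h1 : 2704 / 8192 < l) (h2 : l ≤ 2768 / 8192) : RR l ≤ 38745 / 65536 := by
  rw [RR_14 (by linarith) (by linarith)]
  exact chord_le (n := 338) (by norm_num) (by norm_num) (by linarith) (by norm_num)

theorem r10 {l : ℝ} (h1 : 2768 / 8192 < l) (h2 : l ≤ 2824 / 8192) : RR l ≤ 38553 / 65536 := by
  rw [RR_14 (by linarith) (by linarith)]
  exact chord_le (n := 346) (by norm_num) (by norm_num) (by linarith) (by norm_num)

theorem r11 {l : ℝ} (h1 : 2824 / 8192 < l) (h2 : l ≤ 2864 / 8192) : RR l ≤ 38384 / 65536 := by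
  rw [RR_15 (by linarith) (by linarith)]
  exact chord_le (n := 353) (by norm_num) (by norm_num) (by linarith) (by norm_num)

theorem r12 {l : ℝ} (h1 : 2864 / 8192 < l) (h2 : l ≤ 2896 / 8192) : RR l ≤ 38257 / 65536 := by
  rw [RR_15 (by linarith) (by linarith)]
  exact chord_le (n := 358) (by norm_num) (by norm_num) (by linarith) (by norm_num)

theorem r13 {l : ℝ} (h1 : 2896 / 8192 < l) (h2 : l ≤ 2920 / 8192) : RR l ≤ 38155 / 65536 := by
  rw [RR_15 (by linarith) (by linarith)]
  exact chord_le (n := 362) (by norm_num) (by norm_num) (by linarith) (by norm_num)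

theorem r14 {l : ℝ} (h1 : 2920 / 8192 < l) (h2 : l ≤ 2940 / 8192) : RR l ≤ 38079 / 65536 := by
  rw [RR_15 (by linarith) (by linarith)]
  exact chord_le (n := 365) (by norm_num) (by norm_num) (by linarith) (by norm_num)

theorem r15 {l : ℝ} (h1 : 2940 / 8192 < l) (h2 : l ≤ 2952 / 8192) : RR l ≤ 38015 / 65536 := by
  rw [RR_15 (by linarith) (by linarith)]
  exact chord_le (n := 735/2) (by norm_num) (by norm_num) (by linarith) (by norm_num)

theorem r16 {l : ℝ} (h1 : 2952 / 8192 < l) (h2 : l ≤ 2964 / 8192) : RR l ≤ 37977 / 65536 := by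
  rw [RR_16 (by linarith) (by linarith)]
  exact chord_le (n := 369) (by norm_num) (by norm_num) (by linarith) (by norm_num)

theorem r17 {l : ℝ} (h1 : 2964 / 8192 < l) (h2 : l ≤ 2976 / 8192) : RR l ≤ 37937 / 65536 := by
  rw [RR_16 (by linarith) (by linarith)]
  exact chord_le (n := 741/2) (by norm_num) (by norm_num) (by linarith) (by norm_num)

theorem r18 {l : ℝ} (h1 : 2976 / 8192 < l) (h2 : l ≤ 2986 / 8192) : RR l ≤ 37896 / 65536 := by
  rw [RR_16 (by linarith) (by linarith)]
  exact chord_le (n := 372) (by norm_num) (by norm_num) (by linarith) (by norm_num)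

theorem r19 {l : ℝ} (h1 : 2986 / 8192 < l) (h2 : l ≤ 2994 / 8192) : RR l ≤ 37862 / 65536 := by
  rw [RR_16 (by linarith) (by linarith)]
  exact chord_le (n := 1493/4) (by norm_num) (by norm_num) (by linarith) (by norm_num)

theorem r20 {l : ℝ} (h1 : 2994 / 8192 < l) (h2 : l ≤ 3000 / 8192) : RR l ≤ 37836 / 65536 := by
  rw [RR_16 (by linarith) (by linarith)]
  exact chord_le (n := 1497/4) (by norm_num) (by norm_num) (by linarith) (by norm_num)

theorem r21 {l : ℝ} (h1 : 3000 / 8192 < l) (h2 : l ≤ 3006 / 8192) : RR l ≤ 37815 / 65536 := by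
  rw [RR_16 (by linarith) (by linarith)]
  exact chord_le (n := 375) (by norm_num) (by norm_num) (by linarith) (by norm_num)

theorem r22 {l : ℝ} (h1 : 3006 / 8192 < l) (h2 : l ≤ 3008 / 8192) : RR l ≤ 37795 / 65536 := by
  rw [RR_16 (by linarith) (by linarith)]
  exact chord_le (n := 1503/4) (by norm_num) (by norm_num) (by linarith) (by norm_num)

theorem r23 {l : ℝ} (h1 : 3008 / 8192 < l) (h2 : l ≤ 3012 / 8192) : RR l ≤ 37788 / 65536 := by
  rw [RR_17 (by linarith) (by linarith)]
  exact chord_le (n := 376) (by norm_num) (by norm_num) (by linarith) (by norm_num)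

end MainAux

open DataAux MainAux

theorem LEV0_mono {l R R' s : ℝ} (h : R' ≤ R) (H : LEV0 l R s) : LEV0 l R' s :=
  fun x hx g hg d hd0 hd1 hg0 r hr0 hr1 hr2 => H x hx g hg d hd0 hd1 hg0 r hr0 (hr1.trans h) hr2

/-- The zone `a` near one, for the whole range. -/
theorem lev0_all {l : ℝ} (h0 : 0 < l) (h1 : l ≤ 3672 / 10000) : LEV0 l (RR l) (40 / 1024) := by
  rcases le_or_gt l (816 / 8192) with h | h1
  · exact c0 h0 (by linarith) h (r0 (by linarith) h)
  rcases le_or_gt l (1432 / 8192) with h | h2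
  · exact c1 h0 h1.le h (r1 h1 h)
  rcases le_or_gt l (1840 / 8192) with h | h3
  · exact c2 h0 h2.le h (r2 h2 h)
  rcases le_or_gt l (2048 / 8192) with h | h4
  · exact c3 h0 h3.le h (r3 h3 h)
  rcases le_or_gt l (2256 / 8192) with h | h5
  · exact c4 h0 h4.le h (r4 h4 h)
  rcases le_or_gt l (2456 / 8192) with h | h6
  · exact c5 h0 h5.le h (r5 h5 h)
  rcases le_or_gt l (2584 / 8192) with h | h7
  · exact c6 h0 h6.le h (r6 h6 h)
  rcases le_or_gt l (2692 / 8192) with h | h8
  · exact c7 h0 h7.le h (r7 h7 h)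
  rcases le_or_gt l (2704 / 8192) with h | h9
  · exact c8 h0 h8.le h (r8 h8 h)
  rcases le_or_gt l (2768 / 8192) with h | h10
  · exact c9 h0 h9.le h (r9 h9 h)
  rcases le_or_gt l (2824 / 8192) with h | h11
  · exact c10 h0 h10.le h (r10 h10 h)
  rcases le_or_gt l (2864 / 8192) with h | h12
  · exact c11 h0 h11.le h (r11 h11 h)
  rcases le_or_gt l (2896 / 8192) with h | h13
  · exact c12 h0 h12.le h (r12 h12 h)
  rcases le_or_gt l (2920 / 8192) with h | h14
  · exact c13 h0 h13.le h (r13 h13 h)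
  rcases le_or_gt l (2940 / 8192) with h | h15
  · exact c14 h0 h14.le h (r14 h14 h)
  rcases le_or_gt l (2952 / 8192) with h | h16
  · exact c15 h0 h15.le h (r15 h15 h)
  rcases le_or_gt l (2964 / 8192) with h | h17
  · exact c16 h0 h16.le h (r16 h16 h)
  rcases le_or_gt l (2976 / 8192) with h | h18
  · exact c17 h0 h17.le h (r17 h17 h)
  rcases le_or_gt l (2986 / 8192) with h | h19
  · exact c18 h0 h18.le h (r18 h18 h)
  rcases le_or_gt l (2994 / 8192) with h | h20
  · exact c19 h0 h19.le h (r19 h19 h)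
  rcases le_or_gt l (3000 / 8192) with h | h21
  · exact c20 h0 h20.le h (r20 h20 h)
  rcases le_or_gt l (3006 / 8192) with h | h22
  · exact c21 h0 h21.le h (r21 h21 h)
  rcases le_or_gt l (3008 / 8192) with h | h23
  · exact c22 h0 h22.le h (r22 h22 h)
  exact c23 h0 h23.le (by linarith) (r23 h23 (by linarith))

end Pool.Agent.BL0
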