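import Pool.Agent.Lib.BL0.Dif
import Pool.Agent.Lib.BNR.Near
import Pool.Agent.Lib.P187w.Hred

/-!
# BL0.Cell: the level zero on one cell of values of `l`, from the values at the vertices
-/

set_option autoImplicit false

open Complex Set
open scoped Real ComplexConjugate
open Pool.Agent.P187f6b Pool.Agent.P187w Pool.Agent.BNR

namespace Pool.Agent.BL0

/-- the sum of the moduli of the first coefficients -/
noncomputable def VS (d l R : ℝ) (N : ℕ) (ζ : ℂ) : ℝ := ∑ n ∈ Finset.range N, R ^ n * ‖cc d l ζ n‖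

/-- the sum of the bounds of the first coefficients -/
noncomputable def PS (d l R : ℝ) (N : ℕ) : ℝ := ∑ n ∈ Finset.range N, R ^ n * Pr d l n

/-- the error of the interpolation between the vertices -/
noncomputable def er (d l R : ℝ) (M : ℕ) : ℝ :=
  d * (2 / (M : ℝ)) ^ 2 / (4 * (1 - l) ^ 2) * (R * (1 + R) / (1 - R) ^ 3)

theorem sq_sum {R : ℝ} (h0 : 0 ≤ R) (h1 : R < 1) (N : ℕ) :
    ∑ n ∈ Finset.range N, R ^ n * (n : ℝ) ^ 2 ≤ R * (1 + R) / (1 - R) ^ 3 := by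
  have hx : 0 < 1 - R := by linarith
  have h2 := Finset.sum_range_succ' (fun n : ℕ => R ^ n * (n : ℝ) ^ 2) N
  have h3 : ∑ n ∈ Finset.range N, R ^ (n + 1) * (((n + 1 : ℕ) : ℝ)) ^ 2 =
      R * (∑ n ∈ Finset.range N, R ^ n * (n : ℝ) ^ 2 + 2 * ∑ n ∈ Finset.range N, (n : ℝ) * R ^ n +
        ∑ n ∈ Finset.range N, R ^ n) := by
    rw [Finset.mul_sum, ← Finset.sum_add_distrib, ← Finset.sum_add_distrib, Finset.mul_sum]
    refine Finset.sum_congr rfl fun n _ => ?_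
    push_cast
    ring
  have h4 : ∑ n ∈ Finset.range (N + 1), R ^ n * (n : ℝ) ^ 2 =
      ∑ n ∈ Finset.range N, R ^ n * (n : ℝ) ^ 2 + R ^ N * (N : ℝ) ^ 2 := Finset.sum_range_succ _ _
  have h5 : 0 ≤ R ^ N * (N : ℝ) ^ 2 := by positivity
  have h6 := SeqAux.geo_le h0 h1 N
  have h7 := SeqAux.geo1_le h0 h1 N
  rw [h3] at h2
  set S := ∑ n ∈ Finset.range N, R ^ n * (n : ℝ) ^ 2 with hS
  have h8 : S * (1 - R) ≤ R * (1 + R) / (1 - R) ^ 2 := by
    have e : R * (1 + R) / (1 - R) ^ 2 = R * (2 * (R / (1 - R) ^ 2) + 1 / (1 - R)) := by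
      field_simp
      ring
    rw [e]
    have h9 : S ≤ R * (S + 2 * ∑ n ∈ Finset.range N, (n : ℝ) * R ^ n + ∑ n ∈ Finset.range N, R ^ n) := by
      simp only [Nat.cast_zero] at h2
      linarith
    have h10 : R * (2 * ∑ n ∈ Finset.range N, (n : ℝ) * R ^ n + ∑ n ∈ Finset.range N, R ^ n) ≤
        R * (2 * (R / (1 - R) ^ 2) + 1 / (1 - R)) := mul_le_mul_of_nonneg_left (by linarith) h0
    linarith
  have e : R * (1 + R) / (1 - R) ^ 3 = R * (1 + R) / (1 - R) ^ 2 / (1 - R) := by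
    field_simp
  rw [e, le_div_iff₀ hx]
  exact h8

theorem VS_conj (d l R : ℝ) (N : ℕ) (ζ : ℂ) : VS d l R N (conj ζ) = VS d l R N ζ := by
  unfold VS
  exact Finset.sum_congr rfl fun n _ => by rw [cc_conj]

theorem VS_seg {d l R B : ℝ} (hd : 0 ≤ d) (hl0 : 0 ≤ l) (hl1 : l < 1) (hR0 : 0 ≤ R) (hR1 : R < 1)
    (N : ℕ) {M : ℕ} {α β θ : ℝ} (hα : α ≤ θ) (hβ : θ ≤ β)
    (hab : β - α ≤ 2 / M) (h1 : VS d l R N (cexp (α * I)) ≤ B) (h2 : VS d l R N (cexp (β * I)) ≤ B) :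
    VS d l R N (cexp (θ * I)) ≤ B + er d l R M := by
  obtain ⟨s, hs0, hs1, hs⟩ : ∃ s : ℝ, 0 ≤ s ∧ s ≤ 1 ∧ θ = s * α + (1 - s) * β := by
    rcases eq_or_lt_of_le (hα.trans hβ) with h | h
    · exact ⟨0, le_rfl, zero_le_one, by linarith⟩
    · have h' : 0 < β - α := by linarith
      refine ⟨(β - θ) / (β - α), div_nonneg (by linarith) h'.le, (div_le_one h').2 (by linarith), ?_⟩
      field_simp
      ring
  have hs1' : 0 ≤ 1 - s := by linarith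
  have hl' : 0 < 1 - l := by linarith
  have h3 : VS d l R N (cexp (θ * I)) ≤ s * VS d l R N (cexp (α * I)) + (1 - s) * VS d l R N (cexp (β * I)) +
      d * (β - α) ^ 2 / (4 * (1 - l) ^ 2) * ∑ n ∈ Finset.range N, R ^ n * (n : ℝ) ^ 2 := by
    unfold VS
    rw [Finset.mul_sum, Finset.mul_sum, Finset.mul_sum, ← Finset.sum_add_distrib, ← Finset.sum_add_distrib]
    refine Finset.sum_le_sum fun n _ => ?_
    have := mul_le_mul_of_nonneg_left (cc_seg hd hl0 hl1 hs0 hs1 hs n) (pow_nonneg hR0 n)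
    refine this.trans (le_of_eq ?_)
    ring
  have h4 : (β - α) ^ 2 ≤ (2 / (M : ℝ)) ^ 2 := pow_le_pow_left₀ (by linarith) hab 2
  have h5 : d * (β - α) ^ 2 / (4 * (1 - l) ^ 2) * ∑ n ∈ Finset.range N, R ^ n * (n : ℝ) ^ 2 ≤ er d l R M := by
    unfold er
    have h6 := sq_sum hR0 hR1 N
    have h7 : 0 ≤ ∑ n ∈ Finset.range N, R ^ n * (n : ℝ) ^ 2 := Finset.sum_nonneg fun n _ => by positivity
    have h8 : d * (β - α) ^ 2 / (4 * (1 - l) ^ 2) ≤ d * (2 / (M : ℝ)) ^ 2 / (4 * (1 - l) ^ 2) :=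
      div_le_div_of_nonneg_right (mul_le_mul_of_nonneg_left h4 hd) (by positivity)
    exact mul_le_mul h8 h6 h7 (by positivity)
  have h6 := mul_le_mul_of_nonneg_left h1 hs0
  have h7 := mul_le_mul_of_nonneg_left h2 hs1'
  have h8 : s * B + (1 - s) * B = B := by ring
  linarith

/-- the vertices -/
theorem VS_all {d l R B : ℝ} (hd : 0 ≤ d) (hl0 : 0 ≤ l) (hl1 : l < 1) (hR0 : 0 ≤ R) (hR1 : R < 1)
    (N : ℕ) {M : ℕ} (hM : 0 < M) (hV : ∀ i ≤ M, VS d l R N (E ((i : ℝ) / M)) ≤ B ∧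
      VS d l R N (I * E ((i : ℝ) / M)) ≤ B) {ζ : ℂ} (hζ : ‖ζ‖ = 1) :
    VS d l R N ζ ≤ B + er d l R M := by
  -- up to conjugation
  suffices H : ∀ ζ : ℂ, ‖ζ‖ = 1 → 0 ≤ ζ.im → VS d l R N ζ ≤ B + er d l R M by
    rcases le_total 0 ζ.im with h | h
    · exact H ζ hζ h
    · rw [← VS_conj]
      exact H _ (by rw [norm_conj]; exact hζ) (by rw [conj_im]; linarith)
  intro ζ hζ him
  have hexp : ζ = cexp ((arg ζ : ℝ) * I) := by
    have := Complex.norm_mul_exp_arg_mul_I ζ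
    rw [hζ, ofReal_one, one_mul] at this
    exact this.symm
  have h0 : 0 ≤ arg ζ := Complex.arg_nonneg_iff.2 him
  have hπ : arg ζ ≤ π := Complex.arg_le_pi ζ
  have hE : ∀ i : ℕ, E ((i : ℝ) / M) = cexp ((ang M i : ℝ) * I) := fun i => E_eq _
  rw [hexp]
  rcases le_total (arg ζ) (π / 2) with h | h
  · obtain ⟨i, hi, h1, h2⟩ := exists_ang hM h0 h
    refine VS_seg hd hl0 hl1 hR0 hR1 N h1 h2 (ang_step hM i).1 ?_ ?_
    · rw [← hE]; exact (hV i hi.le).1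
    · rw [← hE]; exact (hV (i + 1) hi).1
  · obtain ⟨i, hi, h1, h2⟩ := exists_ang hM (θ := arg ζ - π / 2) (by linarith) (by linarith)
    have hI : ∀ φ : ℝ, cexp (((φ + π / 2 : ℝ)) * I) = I * cexp ((φ : ℝ) * I) := by
      intro φ
      have : ((φ + π / 2 : ℝ) : ℂ) * I = (π / 2 : ℂ) * I + (φ : ℝ) * I := by
        push_cast
        ring
      rw [this, Complex.exp_add, Complex.exp_pi_div_two_mul_I]
    refine VS_seg hd hl0 hl1 hR0 hR1 N (α := ang M i + π / 2) (β := ang M (i + 1) + π / 2)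
      (by linarith) (by linarith) ?_ ?_ ?_
    · have := (ang_step hM i).1
      linarith
    · rw [hI, ← hE]; exact (hV i hi.le).2
    · rw [hI, ← hE]; exact (hV (i + 1) hi).2

/-- the bound on one cell -/
theorem cell_sum {d l0 l l1 r R B : ℝ} (hd : 0 ≤ d) (h0 : 0 ≤ l0) (h01 : l0 ≤ l) (h12 : l ≤ l1)
    (hl1 : l1 < 1) (hr0 : 0 ≤ r) (hrR : r ≤ R) (hR1 : R < 1) (N N' : ℕ) {ζ : ℂ} (hζ : ‖ζ‖ = 1)
    (hV : VS d l0 R N ζ ≤ B) :
    ∑ n ∈ Finset.range N', ‖cc d l ζ n‖ * r ^ n ≤ Wf d l1 R - PS d l0 R N + B := by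
  have hR0 : 0 ≤ R := hr0.trans hrR
  have hl : 0 ≤ l := h0.trans h01
  have hl10 : 0 ≤ l1 := hl.trans h12
  have h1 : ∑ n ∈ Finset.range N', ‖cc d l ζ n‖ * r ^ n ≤ ∑ n ∈ Finset.range (N + N'), ‖cc d l ζ n‖ * R ^ n := by
    refine (Finset.sum_le_sum fun n _ => mul_le_mul_of_nonneg_left (pow_le_pow_left₀ hr0 hrR n) (norm_nonneg _)).trans ?_
    exact Finset.sum_le_sum_of_subset_of_nonneg (Finset.range_mono (by omega)) fun n _ _ => by positivity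
  have h2 : ∑ n ∈ Finset.range (N + N'), ‖cc d l ζ n‖ * R ^ n =
      ∑ n ∈ Finset.range N, ‖cc d l ζ n‖ * R ^ n + ∑ n ∈ Finset.range N', ‖cc d l ζ (N + n)‖ * R ^ (N + n) :=
    Finset.sum_range_add _ _ _
  have h3 : ∑ n ∈ Finset.range (N + N'), Pr d l1 n * R ^ n =
      ∑ n ∈ Finset.range N, Pr d l1 n * R ^ n + ∑ n ∈ Finset.range N', Pr d l1 (N + n) * R ^ (N + n) :=
    Finset.sum_range_add _ _ _
  have h4 : ∑ n ∈ Finset.range N', ‖cc d l ζ (N + n)‖ * R ^ (N + n) ≤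
      ∑ n ∈ Finset.range N', Pr d l1 (N + n) * R ^ (N + n) :=
    Finset.sum_le_sum fun n _ => mul_le_mul_of_nonneg_right
      ((cc_norm_le hd hl hζ _).trans (Pr_mono hd hl h12 _)) (pow_nonneg hR0 _)
  have h5 : ∑ n ∈ Finset.range N, ‖cc d l ζ n‖ * R ^ n ≤
      VS d l0 R N ζ + (∑ n ∈ Finset.range N, Pr d l1 n * R ^ n - PS d l0 R N) := by
    unfold VS PS
    rw [← Finset.sum_sub_distrib, ← Finset.sum_add_distrib]
    refine Finset.sum_le_sum fun n _ => ?_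
    have h6 := cc_diff hd h0 h01 hζ n
    have h7 := Pr_mono hd hl h12 n
    have h8 := mul_le_mul_of_nonneg_left (show ‖cc d l ζ n‖ ≤ ‖cc d l0 ζ n‖ + (Pr d l1 n - Pr d l0 n) by linarith)
      (pow_nonneg hR0 n)
    linarith
  have hlR : l1 * R < 1 := by nlinarith
  have h6 := P_sum hd hl10 hR0 hR1 hlR (N + N')
  linarith

/-- level zero on one cell -/
theorem lev0_cell {d l0 l1 R B : ℝ} (hd : 0 ≤ d) (h0 : 0 ≤ l0) (hl1 : l1 < 1) (hR0 : 0 ≤ R) (hR1 : R < 1)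
    (N : ℕ) {M : ℕ} (hM : 0 < M) (hV : ∀ i ≤ M, VS d l0 R N (E ((i : ℝ) / M)) ≤ B ∧
      VS d l0 R N (I * E ((i : ℝ) / M)) ≤ B)
    (hfin : R * (Wf d l1 R - PS d l0 R N + (B + er d l0 R M)) < 1 / (1 + l1))
    {l R' : ℝ} (hl0 : 0 < l) (h01 : l0 ≤ l) (h12 : l ≤ l1) (hR' : R' ≤ R) : LEV0 l R' d := by
  intro x hx g hg dd hdd0 hdd1 hg0 r hr0 hr1 hr2
  have hl1' : l < 1 := h12.trans_lt hl1
  have hl0' : l0 < 1 := h01.trans_lt hl1'
  set u : ℂ := x / l with hu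
  have hlc : (l : ℂ) ≠ 0 := by exact_mod_cast hl0.ne'
  have hxu : x = l * u := by rw [hu]; field_simp
  have hun : ‖u‖ = 1 := by
    rw [hu, norm_div, hx, Complex.norm_real, Real.norm_eq_abs, abs_of_pos hl0, div_self hl0.ne']
  have hu0 : u ≠ 0 := by
    intro h
    rw [h, norm_zero] at hun
    exact zero_ne_one hun
  have H : ∀ ζ : ℂ, ‖ζ‖ = 1 → ∀ N' : ℕ, ∑ n ∈ Finset.range N',
      ‖x ^ n - d * zz x ζ n‖ * r ^ n ≤ Wf d l1 R - PS d l0 R N + (B + er d l0 R M) := by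
    intro ζ hζ N'
    have hζu : ‖ζ / u‖ = 1 := by rw [norm_div, hζ, hun, div_one]
    have e : ∀ n, ‖x ^ n - d * zz x ζ n‖ = ‖cc d l (ζ / u) n‖ := by
      intro n
      have : x ^ n - d * zz x ζ n = u ^ n * cc d l (ζ / u) n := by
        rw [hxu, zz_rot l hu0]
        unfold cc
        ring
      rw [this, norm_mul, norm_pow, hun, one_pow, one_mul]
    simp only [e]
    exact cell_sum hd h0 h01 h12 hl1 hr0 (hr1.trans hR') hR1 N N' hζu
      (VS_all hd h0 hl0' hR0 hR1 N hM hV hζu)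
  have hM0 : 0 ≤ Wf d l1 R - PS d l0 R N + (B + er d l0 R M) := by
    have := H 1 (by simp) 0
    simpa using this
  refine lev0_lt hx hl0 hl1' hr0 hr2 H ?_ hg hdd0 hdd1 hg0
  have h1 : r * (Wf d l1 R - PS d l0 R N + (B + er d l0 R M)) ≤
      R * (Wf d l1 R - PS d l0 R N + (B + er d l0 R M)) :=
    mul_le_mul_of_nonneg_right (hr1.trans hR') hM0
  have h2 : 1 / (1 + l1) ≤ 1 / (1 + l) := one_div_le_one_div_of_le (by linarith) (by linarith)
  linarith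

end Pool.Agent.BL0
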