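import Pool.Agent.Lib.BL0.Cell

/-!
# BL0.Chk: the integer program for the values at the vertices, and its correctness
-/

set_option autoImplicit false

open Complex Set
open scoped Real ComplexConjugate
open Pool.Agent.P187f6b Pool.Agent.P187w Pool.Agent.BNR

namespace Pool.Agent.BL0

/-- one step of the Newton iteration for the square root, from above -/
def nw (n s : ℕ) : ℕ := (s + n / s) / 2 + 1

/-- upper bound of the square root of `x ^ 2 + y ^ 2` -/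
def srt (x y : ℕ) : ℕ :=
  nw (x * x + y * y) (nw (x * x + y * y) (nw (x * x + y * y) (nw (x * x + y * y) (x + y))))

/-- the distance -/
def dst (a b : ℕ) : ℕ := (a - b) + (b - a)

/-- one step of the program -/
def bod (a1 a2 b P β : ℕ) (ih : ℕ → ℕ → ℕ → ℕ → ℕ → ℕ → ℕ → ℕ → ℕ) :
    ℕ → ℕ → ℕ → ℕ → ℕ → ℕ → ℕ → ℕ → ℕ :=
  fun n xp xm yp ym g D acc =>
    ih (n + 1)
      (a1 * xp + a2 * xm + b * ym + ((n + 2) * (g * P) + a1 * ((n + 1) * g)))
      (a1 * xm + a2 * xp + b * yp + a2 * ((n + 1) * g))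
      (a1 * yp + a2 * ym + b * xp + b * ((n + 1) * g))
      (a1 * ym + a2 * yp + b * xm)
      (g * P) (D * β)
      (acc + srt (dst (128 * g + 5 * xm) (5 * xp) * 33554432 / D + 1)
        (dst (5 * yp) (5 * ym) * 33554432 / D + 1))

/-- The sum of the upper bounds of `2 ^ 32 * R ^ n * ‖cc‖`. -/
def run (a1 a2 b P β : ℕ) (k : ℕ) : ℕ → ℕ → ℕ → ℕ → ℕ → ℕ → ℕ → ℕ → ℕ :=
  Nat.rec (fun _ _ _ _ _ _ _ acc => acc) (fun _ ih => bod a1 a2 b P β ih) k

/-- one step of the program for the bounds -/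
def pod (Q P β : ℕ) (ih : ℕ → ℕ → ℕ → ℕ → ℕ → ℕ) : ℕ → ℕ → ℕ → ℕ → ℕ → ℕ :=
  fun n ρ g D acc =>
    ih (n + 1) (Q * ρ + ((n + 2) * (g * P) + Q * ((n + 1) * g))) (g * P) (D * β)
      (acc + (128 * g + 5 * ρ) * 33554432 / D)

/-- The sum of the lower bounds of `2 ^ 32 * R ^ n * Pr`. -/
def psr (Q P β : ℕ) (k : ℕ) : ℕ → ℕ → ℕ → ℕ → ℕ → ℕ :=
  Nat.rec (fun _ _ _ _ acc => acc) (fun _ ih => pod Q P β ih) k

theorem run_zero (a1 a2 b P β n xp xm yp ym g D acc : ℕ) :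
    run a1 a2 b P β 0 n xp xm yp ym g D acc = acc := rfl

theorem run_succ (a1 a2 b P β k : ℕ) :
    run a1 a2 b P β (k + 1) = bod a1 a2 b P β (run a1 a2 b P β k) := rfl

theorem psr_zero (Q P β n ρ g D acc : ℕ) : psr Q P β 0 n ρ g D acc = acc := rfl

theorem psr_succ (Q P β k : ℕ) : psr Q P β (k + 1) = pod Q P β (psr Q P β k) := rfl

/-- the check of the two vertices number `i` -/
def vchk (p q m M N Bd i : ℕ) : Bool :=
  Nat.ble (run ((M * M - i * i) * (q * m)) 0 (2 * i * M * (q * m)) (p * m * (M * M + i * i))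
    (65536 * q * (M * M + i * i)) N 0 1 0 0 0 1 1 0) Bd &&
  Nat.ble (run 0 (2 * i * M * (q * m)) ((M * M - i * i) * (q * m)) (p * m * (M * M + i * i))
    (65536 * q * (M * M + i * i)) N 0 1 0 0 0 1 1 0) Bd

/-- the check of all vertices `i < k` -/
def achk (p q m M N Bd k : ℕ) : Bool :=
  Nat.rec true (fun i ih => ih && vchk p q m M N Bd i) k

theorem nw_sq {n s : ℕ} (hs : 0 < s) : n ≤ nw n s ^ 2 := by
  unfold nw
  have h1 : n < s * (n / s) + s := by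
    have := Nat.div_add_mod n s
    have := Nat.mod_lt n hs
    omega
  have h2 : s + n / s ≤ 2 * ((s + n / s) / 2) + 1 := by omega
  set t := n / s
  set v := (s + t) / 2
  have h3 : s + t + 1 ≤ 2 * (v + 1) := by omega
  have h4 : (s + t + 1) ^ 2 ≤ (2 * (v + 1)) ^ 2 := Nat.pow_le_pow_left h3 2
  have h5 : 4 * (s * (t + 1)) ≤ (s + t + 1) ^ 2 := by
    zify
    nlinarith [sq_nonneg ((s : ℤ) - (t + 1))]
  have h6 : (2 * (v + 1)) ^ 2 = 4 * (v + 1) ^ 2 := by ring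
  have h7 : s * (t + 1) = s * t + s := by ring
  omega

theorem nw_pos (n s : ℕ) : 0 < nw n s := Nat.succ_pos _

theorem srt_sq (x y : ℕ) : x * x + y * y ≤ srt x y ^ 2 := nw_sq (nw_pos _ _)

theorem dst_cast (a b : ℕ) : ((dst a b : ℕ) : ℝ) = |(a : ℝ) - b| := by
  unfold dst
  rcases le_total a b with h | h
  · rw [Nat.sub_eq_zero_of_le h, zero_add, Nat.cast_sub h, abs_of_nonpos]
    · ring
    · have : (a : ℝ) ≤ b := by exact_mod_cast h
      linarith
  · rw [Nat.sub_eq_zero_of_le h, add_zero, Nat.cast_sub h, abs_of_nonneg]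
    have : (b : ℝ) ≤ a := by exact_mod_cast h
    linarith

/-- rounding up -/
theorem div_up (a D : ℕ) (hD : 0 < D) : (a : ℝ) / D ≤ ((a / D + 1 : ℕ) : ℝ) := by
  have hD' : (0 : ℝ) < D := by exact_mod_cast hD
  rw [div_le_iff₀ hD']
  have : a ≤ (a / D + 1) * D := by
    have := Nat.div_add_mod a D
    have := Nat.mod_lt a hD
    nlinarith
  exact_mod_cast this

theorem norm_le_srt {X Y c : ℝ} {x y : ℕ} (hx : |X| ≤ x) (hy : |Y| ≤ y) (hc : c ^ 2 = X ^ 2 + Y ^ 2) (hc0 : 0 ≤ c) :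
    c ≤ (srt x y : ℕ) := by
  have h1 : ((x * x + y * y : ℕ) : ℝ) ≤ ((srt x y ^ 2 : ℕ) : ℝ) := by exact_mod_cast srt_sq x y
  push_cast at h1
  have h2 : X ^ 2 ≤ (x : ℝ) ^ 2 := by
    rw [← sq_abs]
    exact pow_le_pow_left₀ (abs_nonneg _) hx 2
  have h3 : Y ^ 2 ≤ (y : ℝ) ^ 2 := by
    rw [← sq_abs]
    exact pow_le_pow_left₀ (abs_nonneg _) hy 2
  refine le_of_sq_le_sq ?_ (by positivity)
  nlinarith

/-- the term number `n` with the common factor `2 ^ 32` -/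
theorem term_le {l w : ℝ} {ζ : ℂ} {n xp xm yp ym g D : ℕ} {β : ℝ} (hβ : 0 < β)
    (hD : (D : ℝ) = β ^ n) (hlw : (l : ℂ) ^ n * (w : ℂ) ^ n = g)
    (hz : zz (l : ℂ) ζ n * (w : ℂ) ^ n = ((xp : ℂ) - xm) + ((yp : ℂ) - ym) * I) :
    2 ^ 32 * ((w / β) ^ n * ‖cc (5 / 128) l ζ n‖) ≤
        ((srt (dst (128 * g + 5 * xm) (5 * xp) * 33554432 / D + 1)
          (dst (5 * yp) (5 * ym) * 33554432 / D + 1) : ℕ) : ℝ) := by
  have hD0 : (0 : ℝ) < D := by rw [hD]; positivity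
  have hD0' : 0 < D := by exact_mod_cast hD0
  have hsq : (2 ^ 32 * ((w / β) ^ n * ‖cc (5 / 128) l ζ n‖)) ^ 2 =
      (((128 * g + 5 * xm : ℝ) - 5 * xp) * 33554432 / D) ^ 2 +
      (((5 * yp : ℝ) - 5 * ym) * 33554432 / D) ^ 2 := by
    have hcc : cc (5 / 128) l ζ n * (w : ℂ) ^ n * 128 =
        ((((128 * g + 5 * xm : ℝ) - 5 * xp) : ℝ) : ℂ) - ((((5 * yp : ℝ) - 5 * ym) : ℝ) : ℂ) * I := by
      unfold cc
      push_cast
      have e5 : ((l : ℂ) ^ n - 5 / 128 * zz (l : ℂ) ζ n) * (w : ℂ) ^ n * 128 =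
        128 * ((l : ℂ) ^ n * (w : ℂ) ^ n) - 5 * (zz (l : ℂ) ζ n * (w : ℂ) ^ n) := by ring
      rw [e5, hlw, hz]
      ring
    have hn : (‖cc (5 / 128) l ζ n‖ * |w| ^ n * 128) ^ 2 = ((128 * g + 5 * xm : ℝ) - 5 * xp) ^ 2 +
        ((5 * yp : ℝ) - 5 * ym) ^ 2 := by
      have e6 : ‖cc (5 / 128) l ζ n‖ * |w| ^ n * 128 = ‖cc (5 / 128) l ζ n * (w : ℂ) ^ n * 128‖ := by
        rw [norm_mul, norm_mul, norm_pow, Complex.norm_real, Real.norm_eq_abs]
        norm_num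
      have e7 : ((((128 * g + 5 * xm : ℝ) - 5 * xp) : ℝ) : ℂ) - ((((5 * yp : ℝ) - 5 * ym) : ℝ) : ℂ) * I =
          ⟨(128 * g + 5 * xm : ℝ) - 5 * xp, -((5 * yp : ℝ) - 5 * ym)⟩ := by
        apply Complex.ext
        · simp
        · simp
      rw [e6, hcc, e7, Complex.sq_norm, Complex.normSq_mk]
      ring
    have e9 : (w ^ n) ^ 2 = (|w| ^ n) ^ 2 := by rw [← abs_pow, sq_abs]
    rw [div_pow w, ← hD]
    have e10 : (2 ^ 32 * (w ^ n / D * ‖cc (5 / 128) l ζ n‖)) ^ 2 =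
      (w ^ n) ^ 2 * (2 ^ 64 / D ^ 2 * ‖cc (5 / 128) l ζ n‖ ^ 2) := by ring
    have e11 : (|w| ^ n) ^ 2 * (2 ^ 64 / (D : ℝ) ^ 2 * ‖cc (5 / 128) l ζ n‖ ^ 2) =
      (‖cc (5 / 128) l ζ n‖ * |w| ^ n * 128) ^ 2 * (33554432 / D) ^ 2 := by ring
    rw [e10, e9, e11, hn]
    ring
  refine (le_abs_self _).trans ?_
  refine norm_le_srt (X := ((128 * g + 5 * xm : ℝ) - 5 * xp) * 33554432 / D)
    (Y := ((5 * yp : ℝ) - 5 * ym) * 33554432 / D) ?_ ?_ (by rw [sq_abs]; exact hsq) (abs_nonneg _)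
  · refine le_trans (le_of_eq ?_) (div_up _ D hD0')
    rw [abs_div, abs_mul, abs_of_pos hD0]
    push_cast
    rw [dst_cast]
    push_cast
    norm_num
  · refine le_trans (le_of_eq ?_) (div_up _ D hD0')
    rw [abs_div, abs_mul, abs_of_pos hD0]
    push_cast
    rw [dst_cast]
    push_cast
    norm_num

theorem run_ge {l w : ℝ} {ζ : ℂ} {a1 a2 b P β : ℕ} (hβ : 0 < β)
    (hα : ζ * w = ((a1 : ℂ) - a2) + b * I) (hP : l * w = P) (k : ℕ) :
    ∀ n xp xm yp ym g D acc : ℕ, (g : ℝ) = (P : ℝ) ^ n → (D : ℝ) = (β : ℝ) ^ n →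
      zz (l : ℂ) ζ n * (w : ℂ) ^ n = ((xp : ℂ) - xm) + ((yp : ℂ) - ym) * I →
      (acc : ℝ) + ∑ j ∈ Finset.range k, 2 ^ 32 * ((w / β) ^ (n + j) * ‖cc (5 / 128) l ζ (n + j)‖) ≤
        (run a1 a2 b P β k n xp xm yp ym g D acc : ℕ) := by
  induction k with
  | zero =>
    intro n xp xm yp ym g D acc _ _ _
    rw [run_zero, Finset.sum_range_zero, add_zero]
  | succ k ih =>
    intro n xp xm yp ym g D acc hg hD hz
    have hβ' : (0 : ℝ) < β := by exact_mod_cast hβ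
    have step : run a1 a2 b P β (k + 1) n xp xm yp ym g D acc =
        run a1 a2 b P β k (n + 1)
        (a1 * xp + a2 * xm + b * ym + ((n + 2) * (g * P) + a1 * ((n + 1) * g)))
        (a1 * xm + a2 * xp + b * yp + a2 * ((n + 1) * g))
        (a1 * yp + a2 * ym + b * xp + b * ((n + 1) * g))
        (a1 * ym + a2 * yp + b * xm)
        (g * P) (D * β)
        (acc + srt (dst (128 * g + 5 * xm) (5 * xp) * 33554432 / D + 1)
          (dst (5 * yp) (5 * ym) * 33554432 / D + 1)) := by rw [run_succ, bod]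
    have hPc : (l : ℂ) * w = P := by exact_mod_cast hP
    have hgc : (g : ℂ) = (P : ℂ) ^ n := by exact_mod_cast hg
    have hlw : (l : ℂ) ^ n * (w : ℂ) ^ n = g := by rw [hgc, ← hPc, mul_pow]
    -- the next value
    have hz' : zz (l : ℂ) ζ (n + 1) * (w : ℂ) ^ (n + 1) =
        (((a1 * xp + a2 * xm + b * ym + ((n + 2) * (g * P) + a1 * ((n + 1) * g)) : ℕ) : ℂ) -
          ((a1 * xm + a2 * xp + b * yp + a2 * ((n + 1) * g) : ℕ) : ℂ)) +
        (((a1 * yp + a2 * ym + b * xp + b * ((n + 1) * g) : ℕ) : ℂ) -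
          ((a1 * ym + a2 * yp + b * xm : ℕ) : ℂ)) * I := by
      have e : zz (l : ℂ) ζ (n + 1) * (w : ℂ) ^ (n + 1) =
          (ζ * w) * (zz (l : ℂ) ζ n * (w : ℂ) ^ n) + (n + 2) * (((l : ℂ) ^ n * (w : ℂ) ^ n) * ((l : ℂ) * w)) +
          (ζ * w) * ((n + 1) * ((l : ℂ) ^ n * (w : ℂ) ^ n)) := by
        rw [zz]
        ring
      rw [e, hz, hα, hlw, hPc]
      push_cast
      linear_combination ((b : ℂ) * yp - b * ym) * Complex.I_sq
    have hterm := term_le hβ' hD hlw hz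
    generalize srt (dst (128 * g + 5 * xm) (5 * xp) * 33554432 / D + 1)
          (dst (5 * yp) (5 * ym) * 33554432 / D + 1) = S at hterm step
    have h1 := ih (n + 1) _ _ _ _ (g * P) (D * β) (acc + S)
      (by push_cast; rw [hg, pow_succ]) (by push_cast; rw [hD, pow_succ]) hz'
    rw [step]
    refine le_trans ?_ h1
    rw [Finset.sum_range_succ']
    have e1 : ∑ j ∈ Finset.range k, 2 ^ 32 * ((w / β) ^ (n + (j + 1)) * ‖cc (5 / 128) l ζ (n + (j + 1))‖) =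
        ∑ j ∈ Finset.range k, 2 ^ 32 * ((w / β) ^ (n + 1 + j) * ‖cc (5 / 128) l ζ (n + 1 + j)‖) :=
      Finset.sum_congr rfl fun j _ => by rw [show n + (j + 1) = n + 1 + j by omega]
    rw [e1, add_zero, Nat.cast_add]
    generalize ∑ j ∈ Finset.range k, 2 ^ 32 * ((w / β) ^ (n + 1 + j) * ‖cc (5 / 128) l ζ (n + 1 + j)‖) = T
    generalize 2 ^ 32 * ((w / β) ^ n * ‖cc (5 / 128) l ζ n‖) = U at hterm ⊢
    have : (acc : ℝ) + (T + U) = acc + U + T := by ring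
    rw [this]
    exact add_le_add (add_le_add le_rfl hterm) le_rfl

theorem psr_le {l w : ℝ} {Q P β : ℕ} (hβ : 0 < β) (hQ : w = Q) (hP : l * w = P) (k : ℕ) :
    ∀ n ρ g D acc : ℕ, (g : ℝ) = (P : ℝ) ^ n → (D : ℝ) = (β : ℝ) ^ n →
      Zr l n * w ^ n = ρ →
      (psr Q P β k n ρ g D acc : ℕ) ≤
        (acc : ℝ) + ∑ j ∈ Finset.range k, 2 ^ 32 * ((w / β) ^ (n + j) * Pr (5 / 128) l (n + j)) := by
  induction k with
  | zero =>
    intro n ρ g D acc _ _ _
    rw [psr_zero, Finset.sum_range_zero, add_zero]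
  | succ k ih =>
    intro n ρ g D acc hg hD hz
    have hβ' : (0 : ℝ) < β := by exact_mod_cast hβ
    have hD0 : (0 : ℝ) < D := by rw [hD]; positivity
    have step : psr Q P β (k + 1) n ρ g D acc =
        psr Q P β k (n + 1) (Q * ρ + ((n + 2) * (g * P) + Q * ((n + 1) * g))) (g * P) (D * β)
        (acc + (128 * g + 5 * ρ) * 33554432 / D) := by rw [psr_succ, pod]
    have hlw : l ^ n * w ^ n = g := by rw [hg, ← hP, mul_pow]
    have hz' : Zr l (n + 1) * w ^ (n + 1) = ((Q * ρ + ((n + 2) * (g * P) + Q * ((n + 1) * g)) : ℕ) : ℝ) := by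
      have e : Zr l (n + 1) * w ^ (n + 1) = w * (Zr l n * w ^ n) + (n + 2) * ((l ^ n * w ^ n) * (l * w)) +
          w * ((n + 1) * (l ^ n * w ^ n)) := by
        rw [Zr]
        ring
      rw [e, hz, hlw, hP, hQ]
      push_cast
      ring
    have hterm : (((128 * g + 5 * ρ) * 33554432 / D : ℕ) : ℝ) ≤ 2 ^ 32 * ((w / β) ^ n * Pr (5 / 128) l n) := by
      refine Nat.cast_div_le.trans (le_of_eq ?_)
      rw [div_pow, ← hD]
      have e2 : 2 ^ 32 * (w ^ n / D * Pr (5 / 128) l n) =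
          (128 * (l ^ n * w ^ n) + 5 * (Zr l n * w ^ n)) * 33554432 / D := by
        unfold Pr
        ring
      rw [e2, hlw, hz]
      push_cast
      ring
    generalize (128 * g + 5 * ρ) * 33554432 / D = S at hterm step
    have h1 := ih (n + 1) _ (g * P) (D * β) (acc + S)
      (by push_cast; rw [hg, pow_succ]) (by push_cast; rw [hD, pow_succ]) hz'
    rw [step]
    refine h1.trans ?_
    rw [Finset.sum_range_succ']
    have e1 : ∑ j ∈ Finset.range k, 2 ^ 32 * ((w / β) ^ (n + (j + 1)) * Pr (5 / 128) l (n + (j + 1))) =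
        ∑ j ∈ Finset.range k, 2 ^ 32 * ((w / β) ^ (n + 1 + j) * Pr (5 / 128) l (n + 1 + j)) :=
      Finset.sum_congr rfl fun j _ => by rw [show n + (j + 1) = n + 1 + j by omega]
    rw [e1, add_zero, Nat.cast_add]
    generalize ∑ j ∈ Finset.range k, 2 ^ 32 * ((w / β) ^ (n + 1 + j) * Pr (5 / 128) l (n + 1 + j)) = T
    generalize 2 ^ 32 * ((w / β) ^ n * Pr (5 / 128) l n) = U at hterm ⊢
    have : (acc : ℝ) + (T + U) = acc + U + T := by ring
    rw [this]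
    exact add_le_add (add_le_add le_rfl hterm) le_rfl

/-- the values at the vertices from the program -/
theorem VS_of_vchk {p q m M N Bd i : ℕ} (hq : 0 < q) (hM : 0 < M) (hi : i ≤ M)
    (h : vchk p q m M N Bd i = true) :
    VS (5 / 128) ((p : ℝ) / q) ((m : ℝ) / 65536) N (E ((i : ℝ) / M)) ≤ Bd / 2 ^ 32 ∧
    VS (5 / 128) ((p : ℝ) / q) ((m : ℝ) / 65536) N (I * E ((i : ℝ) / M)) ≤ Bd / 2 ^ 32 := by
  unfold vchk at h
  rw [Bool.and_eq_true] at h
  have h1 := Nat.le_of_ble_eq_true h.1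
  have h2 := Nat.le_of_ble_eq_true h.2
  set C : ℕ := M * M + i * i with hC
  have hC0 : 0 < C := by positivity
  have hCr : (0 : ℝ) < C := by exact_mod_cast hC0
  have hqr : (0 : ℝ) < q := by exact_mod_cast hq
  have hMr : (0 : ℝ) < M := by exact_mod_cast hM
  have hβ : 0 < 65536 * q * C := by positivity
  set w : ℝ := q * m * C with hw
  have hCc : (C : ℂ) ≠ 0 := by exact_mod_cast hCr.ne'
  have hCe : (C : ℂ) = (M : ℂ) * M + (i : ℂ) * i := by rw [hC]; push_cast; ring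
  have hMc : (M : ℂ) ≠ 0 := by exact_mod_cast hMr.ne'
  have hii : i * i ≤ M * M := Nat.mul_le_mul hi hi
  have hsub : ((M * M - i * i : ℕ) : ℂ) = (M : ℂ) * M - (i : ℂ) * i := by
    rw [Nat.cast_sub hii]
    push_cast
    ring
  have hP : (p : ℝ) / q * w = ((p * m * C : ℕ) : ℝ) := by
    rw [hw]
    push_cast
    field_simp
  have hwβ : w / ((65536 * q * C : ℕ) : ℝ) = (m : ℝ) / 65536 := by
    rw [hw]
    push_cast
    field_simp
  have hE : E ((i : ℝ) / M) * w = (((M * M - i * i) * (q * m) : ℕ) : ℂ) - ((0 : ℕ) : ℂ) +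
      ((2 * i * M * (q * m) : ℕ) : ℂ) * I := by
    have e1 : E ((i : ℝ) / M) * (C : ℂ) = (M : ℂ) * M - (i : ℂ) * i + 2 * i * M * I := by
      have hne : (1 : ℂ) + ((((i : ℝ) / M : ℝ)) : ℂ) ^ 2 ≠ 0 := by
        have : (0 : ℝ) < 1 + ((i : ℝ) / M) ^ 2 := by positivity
        exact_mod_cast this.ne'
      unfold E
      rw [div_mul_eq_mul_div, div_eq_iff hne, hCe]
      push_cast
      field_simp
      linear_combination ((M : ℂ) ^ 2 * i ^ 2 + i ^ 4) * Complex.I_sq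
    have e2 : E ((i : ℝ) / M) * (w : ℂ) = E ((i : ℝ) / M) * (C : ℂ) * (q * m) := by
      rw [hw]
      push_cast
      ring
    rw [e2, e1]
    push_cast
    rw [hsub]
    ring
  have hE' : I * E ((i : ℝ) / M) * w = ((0 : ℕ) : ℂ) - ((2 * i * M * (q * m) : ℕ) : ℂ) +
      (((M * M - i * i) * (q * m) : ℕ) : ℂ) * I := by
    rw [mul_assoc, hE]
    push_cast
    linear_combination (2 * (i : ℂ) * M * (q * m)) * Complex.I_sq
  have hfin : ∀ ζ : ℂ, ∀ v : ℕ, (0 : ℕ) + ∑ j ∈ Finset.range N, 2 ^ 32 * ((w / ((65536 * q * C : ℕ) : ℝ)) ^ (0 + j) *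
      ‖cc (5 / 128) ((p : ℝ) / q) ζ (0 + j)‖) ≤ (v : ℝ) → v ≤ Bd →
      VS (5 / 128) ((p : ℝ) / q) ((m : ℝ) / 65536) N ζ ≤ Bd / 2 ^ 32 := by
    intro ζ v hv hvB
    have hvB' : (v : ℝ) ≤ Bd := by exact_mod_cast hvB
    rw [le_div_iff₀ (by positivity)]
    unfold VS
    rw [Finset.sum_mul]
    refine le_trans (le_of_eq ?_) (hv.trans hvB')
    rw [Nat.cast_zero, zero_add]
    refine Finset.sum_congr rfl fun n _ => ?_
    rw [zero_add, hwβ]
    ring
  constructor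
  · exact hfin _ _ (run_ge hβ hE hP N 0 1 0 0 0 1 1 0 (by simp) (by simp) (by simp [zz])) h1
  · exact hfin _ _ (run_ge hβ hE' hP N 0 1 0 0 0 1 1 0 (by simp) (by simp) (by simp [zz])) h2

theorem achk_get {p q m M N Bd k : ℕ} (h : achk p q m M N Bd k = true) :
    ∀ i < k, vchk p q m M N Bd i = true := by
  induction k with
  | zero =>
    intro i hi
    omega
  | succ k ih =>
    have e : achk p q m M N Bd (k + 1) = (achk p q m M N Bd k && vchk p q m M N Bd k) := rfl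
    rw [e, Bool.and_eq_true] at h
    intro i hi
    rcases Nat.lt_succ_iff_lt_or_eq.1 hi with h1 | h1
    · exact ih h.1 i h1
    · rw [h1]; exact h.2

theorem PS_of_psr {p q m N ps : ℕ} (hq : 0 < q) (h : Nat.ble ps (psr (q * m) (p * m) (65536 * q) N 0 1 1 1 0) = true) :
    (ps : ℝ) / 2 ^ 32 ≤ PS (5 / 128) ((p : ℝ) / q) ((m : ℝ) / 65536) N := by
  have h1 := Nat.le_of_ble_eq_true h
  have hqr : (0 : ℝ) < q := by exact_mod_cast hq
  have h2 := psr_le (l := (p : ℝ) / q) (w := (q * m : ℝ)) (Q := q * m) (P := p * m) (β := 65536 * q)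
    (by positivity) (by push_cast; ring) (by push_cast; field_simp) N 0 1 1 1 0 (by simp) (by simp) (by simp [Zr])
  have h3 : (ps : ℝ) ≤ ((psr (q * m) (p * m) (65536 * q) N 0 1 1 1 0 : ℕ) : ℝ) := by exact_mod_cast h1
  rw [div_le_iff₀ (by positivity)]
  refine (h3.trans h2).trans (le_of_eq ?_)
  rw [Nat.cast_zero, zero_add]
  unfold PS
  rw [Finset.sum_mul]
  refine Finset.sum_congr rfl fun n _ => ?_
  have e : (q * m : ℝ) / ((65536 * q : ℕ) : ℝ) = (m : ℝ) / 65536 := by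
    push_cast
    field_simp
  rw [zero_add, e]
  ring

/-- the complete check of one cell -/
def cchk (p q m M N Bd ps : ℕ) : Bool :=
  achk p q m M N Bd (M + 1) && Nat.ble ps (psr (q * m) (p * m) (65536 * q) N 0 1 1 1 0)

/-- level zero on one cell from the program -/
theorem lev0_of_cchk {p p' q m M N Bd ps : ℕ} (hq : 0 < q) (hp' : p' < q) (hm : m < 65536)
    (hM : 0 < M) (h : cchk p q m M N Bd ps = true)
    (hfin : (m : ℝ) / 65536 * (Wf (5 / 128) ((p' : ℝ) / q) ((m : ℝ) / 65536) - (ps : ℝ) / 2 ^ 32 +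
      ((Bd : ℝ) / 2 ^ 32 + er (5 / 128) ((p : ℝ) / q) ((m : ℝ) / 65536) M)) < 1 / (1 + (p' : ℝ) / q))
    {l R : ℝ} (hl0 : 0 < l) (h1 : (p : ℝ) / q ≤ l) (h2 : l ≤ (p' : ℝ) / q) (hR : R ≤ (m : ℝ) / 65536) :
    LEV0 l R (40 / 1024) := by
  unfold cchk at h
  rw [Bool.and_eq_true] at h
  have hqr : (0 : ℝ) < q := by exact_mod_cast hq
  have hp'r : (p' : ℝ) < q := by exact_mod_cast hp'
  have hmr : (m : ℝ) < 65536 := by exact_mod_cast hm
  have hps := PS_of_psr hq h.2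
  have e : (40 / 1024 : ℝ) = 5 / 128 := by norm_num
  rw [e]
  refine lev0_cell (B := (Bd : ℝ) / 2 ^ 32) (N := N) (M := M) (by norm_num) (by positivity)
    ((div_lt_one hqr).2 hp'r) (by positivity) ((div_lt_one (by norm_num)).2 hmr) hM
    (fun i hi => VS_of_vchk hq hM hi (achk_get h.1 i (by omega))) ?_ hl0 h1 h2 hR
  refine lt_of_le_of_lt ?_ hfin
  apply mul_le_mul_of_nonneg_left _ (by positivity)
  linarith

end Pool.Agent.BL0
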