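import Pool.Agent.Lib.BL0.Chk

/-!
# BL0.Data: the 24 cells `0 < l ≤ 3012 / 8192`

`m / 65536` bounds the radius on the cell, `Bd / 2 ^ 32` the values at the vertices.
-/

set_option autoImplicit false
set_option maxRecDepth 100000

open Pool.Agent.P187w

namespace Pool.Agent.BL0

namespace DataAux

theorem k0 : cchk 0 8192 46343 64 22 4936833193 5272377469 = true := by decide +kernel

theorem c0 {l R : ℝ} (hl : 0 < l) (h1 : 0 / 8192 ≤ l) (h2 : l ≤ 816 / 8192) (hR : R ≤ 46343 / 65536) :
    LEV0 l R (40 / 1024) :=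
  lev0_of_cchk (p := 0) (p' := 816) (q := 8192) (m := 46343) (by norm_num) (by norm_num) (by norm_num)
    (by norm_num) k0 (by unfold Wf er; norm_num) hl (by push_cast; linarith) (by push_cast; exact h2)
    (by push_cast; exact hR)

theorem k1 : cchk 816 8192 44041 64 22 4985088429 5585275931 = true := by decide +kernel

theorem c1 {l R : ℝ} (hl : 0 < l) (h1 : 816 / 8192 ≤ l) (h2 : l ≤ 1432 / 8192) (hR : R ≤ 44041 / 65536) :
    LEV0 l R (40 / 1024) :=
  lev0_of_cchk (p := 816) (p' := 1432) (q := 8192) (m := 44041) (by norm_num) (by norm_num) (by norm_num)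
    (by norm_num) k1 (by unfold Wf er; norm_num) hl (by push_cast; exact h1) (by push_cast; exact h2)
    (by push_cast; exact hR)

theorem k2 : cchk 1432 8192 42324 64 22 5081975570 5832076658 = true := by decide +kernel

theorem c2 {l R : ℝ} (hl : 0 < l) (h1 : 1432 / 8192 ≤ l) (h2 : l ≤ 1840 / 8192) (hR : R ≤ 42324 / 65536) :
    LEV0 l R (40 / 1024) :=
  lev0_of_cchk (p := 1432) (p' := 1840) (q := 8192) (m := 42324) (by norm_num) (by norm_num) (by norm_num)
    (by norm_num) k2 (by unfold Wf er; norm_num) hl (by push_cast; exact h1) (by push_cast; exact h2)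
    (by push_cast; exact hR)

theorem k3 : cchk 1840 8192 41194 64 22 5166185641 5998323955 = true := by decide +kernel

theorem c3 {l R : ℝ} (hl : 0 < l) (h1 : 1840 / 8192 ≤ l) (h2 : l ≤ 2048 / 8192) (hR : R ≤ 41194 / 65536) :
    LEV0 l R (40 / 1024) :=
  lev0_of_cchk (p := 1840) (p' := 2048) (q := 8192) (m := 41194) (by norm_num) (by norm_num) (by norm_num)
    (by norm_num) k3 (by unfold Wf er; norm_num) hl (by push_cast; exact h1) (by push_cast; exact h2)
    (by push_cast; exact hR)

theorem k4 : cchk 2048 8192 40617 64 22 5213045205 6083209667 = true := by decide +kernel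

theorem c4 {l R : ℝ} (hl : 0 < l) (h1 : 2048 / 8192 ≤ l) (h2 : l ≤ 2256 / 8192) (hR : R ≤ 40617 / 65536) :
    LEV0 l R (40 / 1024) :=
  lev0_of_cchk (p := 2048) (p' := 2256) (q := 8192) (m := 40617) (by norm_num) (by norm_num) (by norm_num)
    (by norm_num) k4 (by unfold Wf er; norm_num) hl (by push_cast; exact h1) (by push_cast; exact h2)
    (by push_cast; exact hR)

theorem k5 : cchk 2256 8192 40036 64 22 5261907322 6167643419 = true := by decide +kernel

theorem c5 {l R : ℝ} (hl : 0 < l) (h1 : 2256 / 8192 ≤ l) (h2 : l ≤ 2456 / 8192) (hR : R ≤ 40036 / 65536) :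
    LEV0 l R (40 / 1024) :=
  lev0_of_cchk (p := 2256) (p' := 2456) (q := 8192) (m := 40036) (by norm_num) (by norm_num) (by norm_num)
    (by norm_num) k5 (by unfold Wf er; norm_num) hl (by push_cast; exact h1) (by push_cast; exact h2)
    (by push_cast; exact hR)

theorem k6 : cchk 2456 8192 39468 64 22 5310012072 6247684153 = true := by decide +kernel

theorem c6 {l R : ℝ} (hl : 0 < l) (h1 : 2456 / 8192 ≤ l) (h2 : l ≤ 2584 / 8192) (hR : R ≤ 39468 / 65536) :
    LEV0 l R (40 / 1024) :=
  lev0_of_cchk (p := 2456) (p' := 2584) (q := 8192) (m := 39468) (by norm_num) (by norm_num) (by norm_num)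
    (by norm_num) k6 (by unfold Wf er; norm_num) hl (by push_cast; exact h1) (by push_cast; exact h2)
    (by push_cast; exact hR)

theorem k7 : cchk 2584 8192 39098 64 22 5341090044 6298034255 = true := by decide +kernel

theorem c7 {l R : ℝ} (hl : 0 < l) (h1 : 2584 / 8192 ≤ l) (h2 : l ≤ 2692 / 8192) (hR : R ≤ 39098 / 65536) :
    LEV0 l R (40 / 1024) :=
  lev0_of_cchk (p := 2584) (p' := 2692) (q := 8192) (m := 39098) (by norm_num) (by norm_num) (by norm_num)
    (by norm_num) k7 (by unfold Wf er; norm_num) hl (by push_cast; exact h1) (by push_cast; exact h2)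
    (by push_cast; exact hR)

theorem k8 : cchk 2692 8192 38781 64 22 5367351933 6339825770 = true := by decide +kernel

theorem c8 {l R : ℝ} (hl : 0 < l) (h1 : 2692 / 8192 ≤ l) (h2 : l ≤ 2704 / 8192) (hR : R ≤ 38781 / 65536) :
    LEV0 l R (40 / 1024) :=
  lev0_of_cchk (p := 2692) (p' := 2704) (q := 8192) (m := 38781) (by norm_num) (by norm_num) (by norm_num)
    (by norm_num) k8 (by unfold Wf er; norm_num) hl (by push_cast; exact h1) (by push_cast; exact h2)
    (by push_cast; exact hR)

theorem k9 : cchk 2704 8192 38745 64 22 5370243887 6344380199 = true := by decide +kernel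

theorem c9 {l R : ℝ} (hl : 0 < l) (h1 : 2704 / 8192 ≤ l) (h2 : l ≤ 2768 / 8192) (hR : R ≤ 38745 / 65536) :
    LEV0 l R (40 / 1024) :=
  lev0_of_cchk (p := 2704) (p' := 2768) (q := 8192) (m := 38745) (by norm_num) (by norm_num) (by norm_num)
    (by norm_num) k9 (by unfold Wf er; norm_num) hl (by push_cast; exact h1) (by push_cast; exact h2)
    (by push_cast; exact hR)

theorem k10 : cchk 2768 8192 38553 64 22 5385708483 6368604766 = true := by decide +kernel

theorem c10 {l R : ℝ} (hl : 0 < l) (h1 : 2768 / 8192 ≤ l) (h2 : l ≤ 2824 / 8192) (hR : R ≤ 38553 / 65536) :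
    LEV0 l R (40 / 1024) :=
  lev0_of_cchk (p := 2768) (p' := 2824) (q := 8192) (m := 38553) (by norm_num) (by norm_num) (by norm_num)
    (by norm_num) k10 (by unfold Wf er; norm_num) hl (by push_cast; exact h1) (by push_cast; exact h2)
    (by push_cast; exact hR)

theorem k11 : cchk 2824 8192 38384 64 22 5399238749 6389610783 = true := by decide +kernel

theorem c11 {l R : ℝ} (hl : 0 < l) (h1 : 2824 / 8192 ≤ l) (h2 : l ≤ 2864 / 8192) (hR : R ≤ 38384 / 65536) :
    LEV0 l R (40 / 1024) :=
  lev0_of_cchk (p := 2824) (p' := 2864) (q := 8192) (m := 38384) (by norm_num) (by norm_num) (by norm_num)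
    (by norm_num) k11 (by unfold Wf er; norm_num) hl (by push_cast; exact h1) (by push_cast; exact h2)
    (by push_cast; exact hR)

theorem k12 : cchk 2864 8192 38257 64 22 5408596831 6403951156 = true := by decide +kernel

theorem c12 {l R : ℝ} (hl : 0 < l) (h1 : 2864 / 8192 ≤ l) (h2 : l ≤ 2896 / 8192) (hR : R ≤ 38257 / 65536) :
    LEV0 l R (40 / 1024) :=
  lev0_of_cchk (p := 2864) (p' := 2896) (q := 8192) (m := 38257) (by norm_num) (by norm_num) (by norm_num)
    (by norm_num) k12 (by unfold Wf er; norm_num) hl (by push_cast; exact h1) (by push_cast; exact h2)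
    (by push_cast; exact hR)

theorem k13 : cchk 2896 8192 38155 64 22 5416072643 6415341355 = true := by decide +kernel

theorem c13 {l R : ℝ} (hl : 0 < l) (h1 : 2896 / 8192 ≤ l) (h2 : l ≤ 2920 / 8192) (hR : R ≤ 38155 / 65536) :
    LEV0 l R (40 / 1024) :=
  lev0_of_cchk (p := 2896) (p' := 2920) (q := 8192) (m := 38155) (by norm_num) (by norm_num) (by norm_num)
    (by norm_num) k13 (by unfold Wf er; norm_num) hl (by push_cast; exact h1) (by push_cast; exact h2)
    (by push_cast; exact hR)

theorem k14 : cchk 2920 8192 38079 64 22 5421711173 6423906445 = true := by decide +kernel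

theorem c14 {l R : ℝ} (hl : 0 < l) (h1 : 2920 / 8192 ≤ l) (h2 : l ≤ 2940 / 8192) (hR : R ≤ 38079 / 65536) :
    LEV0 l R (40 / 1024) :=
  lev0_of_cchk (p := 2920) (p' := 2940) (q := 8192) (m := 38079) (by norm_num) (by norm_num) (by norm_num)
    (by norm_num) k14 (by unfold Wf er; norm_num) hl (by push_cast; exact h1) (by push_cast; exact h2)
    (by push_cast; exact hR)

theorem k15 : cchk 2940 8192 38015 64 22 5426377449 6430961677 = true := by decide +kernel

theorem c15 {l R : ℝ} (hl : 0 < l) (h1 : 2940 / 8192 ≤ l) (h2 : l ≤ 2952 / 8192) (hR : R ≤ 38015 / 65536) :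
    LEV0 l R (40 / 1024) :=
  lev0_of_cchk (p := 2940) (p' := 2952) (q := 8192) (m := 38015) (by norm_num) (by norm_num) (by norm_num)
    (by norm_num) k15 (by unfold Wf er; norm_num) hl (by push_cast; exact h1) (by push_cast; exact h2)
    (by push_cast; exact hR)

theorem k16 : cchk 2952 8192 37977 64 22 5429199617 6435226158 = true := by decide +kernel

theorem c16 {l R : ℝ} (hl : 0 < l) (h1 : 2952 / 8192 ≤ l) (h2 : l ≤ 2964 / 8192) (hR : R ≤ 37977 / 65536) :
    LEV0 l R (40 / 1024) :=
  lev0_of_cchk (p := 2952) (p' := 2964) (q := 8192) (m := 37977) (by norm_num) (by norm_num) (by norm_num)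
    (by norm_num) k16 (by unfold Wf er; norm_num) hl (by push_cast; exact h1) (by push_cast; exact h2)
    (by push_cast; exact hR)

theorem k17 : cchk 2964 8192 37937 64 22 5431915693 6439288490 = true := by decide +kernel

theorem c17 {l R : ℝ} (hl : 0 < l) (h1 : 2964 / 8192 ≤ l) (h2 : l ≤ 2976 / 8192) (hR : R ≤ 37937 / 65536) :
    LEV0 l R (40 / 1024) :=
  lev0_of_cchk (p := 2964) (p' := 2976) (q := 8192) (m := 37937) (by norm_num) (by norm_num) (by norm_num)
    (by norm_num) k17 (by unfold Wf er; norm_num) hl (by push_cast; exact h1) (by push_cast; exact h2)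
    (by push_cast; exact hR)

theorem k18 : cchk 2976 8192 37896 64 22 5434578607 6443245709 = true := by decide +kernel

theorem c18 {l R : ℝ} (hl : 0 < l) (h1 : 2976 / 8192 ≤ l) (h2 : l ≤ 2986 / 8192) (hR : R ≤ 37896 / 65536) :
    LEV0 l R (40 / 1024) :=
  lev0_of_cchk (p := 2976) (p' := 2986) (q := 8192) (m := 37896) (by norm_num) (by norm_num) (by norm_num)
    (by norm_num) k18 (by unfold Wf er; norm_num) hl (by push_cast; exact h1) (by push_cast; exact h2)
    (by push_cast; exact hR)

theorem k19 : cchk 2986 8192 37862 64 22 5436806708 6446554317 = true := by decide +kernel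

theorem c19 {l R : ℝ} (hl : 0 < l) (h1 : 2986 / 8192 ≤ l) (h2 : l ≤ 2994 / 8192) (hR : R ≤ 37862 / 65536) :
    LEV0 l R (40 / 1024) :=
  lev0_of_cchk (p := 2986) (p' := 2994) (q := 8192) (m := 37862) (by norm_num) (by norm_num) (by norm_num)
    (by norm_num) k19 (by unfold Wf er; norm_num) hl (by push_cast; exact h1) (by push_cast; exact h2)
    (by push_cast; exact hR)

theorem k20 : cchk 2994 8192 37836 64 22 5438653596 6449316091 = true := by decide +kernel

theorem c20 {l R : ℝ} (hl : 0 < l) (h1 : 2994 / 8192 ≤ l) (h2 : l ≤ 3000 / 8192) (hR : R ≤ 37836 / 65536) :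
    LEV0 l R (40 / 1024) :=
  lev0_of_cchk (p := 2994) (p' := 3000) (q := 8192) (m := 37836) (by norm_num) (by norm_num) (by norm_num)
    (by norm_num) k20 (by unfold Wf er; norm_num) hl (by push_cast; exact h1) (by push_cast; exact h2)
    (by push_cast; exact hR)

theorem k21 : cchk 3000 8192 37815 64 22 5439958324 6451237298 = true := by decide +kernel

theorem c21 {l R : ℝ} (hl : 0 < l) (h1 : 3000 / 8192 ≤ l) (h2 : l ≤ 3006 / 8192) (hR : R ≤ 37815 / 65536) :
    LEV0 l R (40 / 1024) :=
  lev0_of_cchk (p := 3000) (p' := 3006) (q := 8192) (m := 37815) (by norm_num) (by norm_num) (by norm_num)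
    (by norm_num) k21 (by unfold Wf er; norm_num) hl (by push_cast; exact h1) (by push_cast; exact h2)
    (by push_cast; exact hR)

theorem k22 : cchk 3006 8192 37795 64 22 5441316719 6453255508 = true := by decide +kernel

theorem c22 {l R : ℝ} (hl : 0 < l) (h1 : 3006 / 8192 ≤ l) (h2 : l ≤ 3008 / 8192) (hR : R ≤ 37795 / 65536) :
    LEV0 l R (40 / 1024) :=
  lev0_of_cchk (p := 3006) (p' := 3008) (q := 8192) (m := 37795) (by norm_num) (by norm_num) (by norm_num)
    (by norm_num) k22 (by unfold Wf er; norm_num) hl (by push_cast; exact h1) (by push_cast; exact h2)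
    (by push_cast; exact hR)

theorem k23 : cchk 3008 8192 37788 64 22 5441751607 6453894870 = true := by decide +kernel

theorem c23 {l R : ℝ} (hl : 0 < l) (h1 : 3008 / 8192 ≤ l) (h2 : l ≤ 3012 / 8192) (hR : R ≤ 37788 / 65536) :
    LEV0 l R (40 / 1024) :=
  lev0_of_cchk (p := 3008) (p' := 3012) (q := 8192) (m := 37788) (by norm_num) (by norm_num) (by norm_num)
    (by norm_num) k23 (by unfold Wf er; norm_num) hl (by push_cast; exact h1) (by push_cast; exact h2)
    (by push_cast; exact hR)

end DataAux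

end Pool.Agent.BL0
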