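import Mathlib

/-!
# BL0.Seg: linear interpolation of exponentials, and the rational points of the circle

`seg`: `|exp(i k θ) - (s exp(i k α) + (1 - s) exp(i k β))| ≤ k² (β - α)² / 8` for `θ = s α + (1 - s) β`.
`cover`: every point of the circle is, up to conjugation, between two neighbouring points
`E(i / M)` or `i E(i / M)`, `E(t) = (1 + i t)² / (1 + t²) = exp(2 i arctan t)`.
-/

set_option autoImplicit false

open Complex Set
open scoped Real ComplexConjugate

namespace Pool.Agent.BL0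

/-- `|exp(i u) - 1 - i u| ≤ u² / 2` for `u ≥ 0` -/
theorem exp_sub_le_nonneg {u : ℝ} (hu : 0 ≤ u) : ‖cexp (u * I) - 1 - u * I‖ ≤ u ^ 2 / 2 := by
  have hd : ∀ x : ℝ, HasDerivAt (fun v : ℝ => cexp (v * I) - 1 - v * I) (I * (cexp (x * I) - 1)) x := by
    intro x
    have h1 : HasDerivAt (fun v : ℝ => (v : ℂ) * I) (1 * I) x :=
      (Complex.ofRealCLM.hasDerivAt).mul_const I
    have h2 := h1.cexp
    have h3 := (h2.sub_const 1).sub h1
    refine h3.congr_deriv ?_
    ring
  have key := image_norm_le_of_norm_deriv_right_le_deriv_boundary (a := 0) (b := u)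
    (f := fun v : ℝ => cexp (v * I) - 1 - v * I) (f' := fun x => I * (cexp (x * I) - 1))
    (B := fun x => x ^ 2 / 2) (B' := fun x => x)
    (fun x _ => (hd x).continuousAt.continuousWithinAt) (fun x _ => (hd x).hasDerivWithinAt)
    (by simp) (fun x => by
      have := ((hasDerivAt_id x).pow 2).div_const 2
      refine this.congr_deriv ?_
      simp) (fun x hx => by
      rw [norm_mul, Complex.norm_I, one_mul, mul_comm]
      have := Real.norm_exp_I_mul_ofReal_sub_one_le (x := x)
      rw [Real.norm_eq_abs, abs_of_nonneg hx.1] at this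
      exact this)
  exact key (right_mem_Icc.2 hu)

theorem exp_sub_le (u : ℝ) : ‖cexp (u * I) - 1 - u * I‖ ≤ u ^ 2 / 2 := by
  rcases le_total 0 u with h | h
  · exact exp_sub_le_nonneg h
  · have h1 := exp_sub_le_nonneg (u := -u) (by linarith)
    have e : conj (cexp (u * I) - 1 - u * I) = cexp ((-u : ℝ) * I) - 1 - (-u : ℝ) * I := by
      simp only [map_sub, map_one, map_mul, conj_I, conj_ofReal, ← exp_conj]
      push_cast
      ring_nf
    rw [← e, norm_conj] at h1
    simpa using h1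

/-- linear interpolation on the circle -/
theorem seg (k : ℕ) {s α β θ : ℝ} (hs0 : 0 ≤ s) (hs1 : s ≤ 1) (hθ : θ = s * α + (1 - s) * β) :
    ‖cexp ((k * θ : ℝ) * I) - (s * cexp ((k * α : ℝ) * I) + (1 - s : ℝ) * cexp ((k * β : ℝ) * I))‖ ≤
      (k : ℝ) ^ 2 * (β - α) ^ 2 / 8 := by
  set h : ℝ := k * (β - α) with hh
  have hα : (k * α : ℝ) = k * θ + (-((1 - s) * h)) := by rw [hθ, hh]; ring
  have hβ : (k * β : ℝ) = k * θ + s * h := by rw [hθ, hh]; ring
  have e1 : cexp ((k * α : ℝ) * I) = cexp ((k * θ : ℝ) * I) * cexp (((-((1 - s) * h) : ℝ)) * I) := by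
    rw [← Complex.exp_add, hα]
    push_cast
    ring_nf
  have e2 : cexp ((k * β : ℝ) * I) = cexp ((k * θ : ℝ) * I) * cexp (((s * h : ℝ)) * I) := by
    rw [← Complex.exp_add, hβ]
    push_cast
    ring_nf
  have e3 : cexp ((k * θ : ℝ) * I) - (s * cexp ((k * α : ℝ) * I) + (1 - s : ℝ) * cexp ((k * β : ℝ) * I)) =
      -(cexp ((k * θ : ℝ) * I) * (s * (cexp (((-((1 - s) * h) : ℝ)) * I) - 1 - ((-((1 - s) * h) : ℝ)) * I) +
        (1 - s : ℝ) * (cexp (((s * h : ℝ)) * I) - 1 - ((s * h : ℝ)) * I))) := by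
    rw [e1, e2]
    push_cast
    ring
  rw [e3, norm_neg, norm_mul, Complex.norm_exp_ofReal_mul_I, one_mul]
  have h1 := exp_sub_le (-((1 - s) * h))
  have h2 := exp_sub_le (s * h)
  have hs1' : 0 ≤ 1 - s := by linarith
  calc ‖(s : ℂ) * (cexp (((-((1 - s) * h) : ℝ)) * I) - 1 - ((-((1 - s) * h) : ℝ)) * I) +
        ((1 - s : ℝ) : ℂ) * (cexp (((s * h : ℝ)) * I) - 1 - ((s * h : ℝ)) * I)‖
      ≤ s * ((-((1 - s) * h)) ^ 2 / 2) + (1 - s) * ((s * h) ^ 2 / 2) := by
        refine (norm_add_le _ _).trans ?_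
        rw [norm_mul, norm_mul, Complex.norm_real, Complex.norm_real, Real.norm_eq_abs, Real.norm_eq_abs,
          abs_of_nonneg hs0, abs_of_nonneg hs1']
        exact add_le_add (mul_le_mul_of_nonneg_left h1 hs0) (mul_le_mul_of_nonneg_left h2 hs1')
    _ = s * (1 - s) * (h ^ 2 / 2) := by ring
    _ ≤ 1 / 4 * (h ^ 2 / 2) := by
        apply mul_le_mul_of_nonneg_right _ (by positivity)
        nlinarith [sq_nonneg (s - 1 / 2)]
    _ = (k : ℝ) ^ 2 * (β - α) ^ 2 / 8 := by rw [hh]; ring

/-- the rational points of the circle -/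
noncomputable def E (t : ℝ) : ℂ := (1 + t * I) ^ 2 / (1 + t ^ 2)

theorem E_eq (t : ℝ) : E t = cexp ((2 * Real.arctan t : ℝ) * I) := by
  have h0 : (0 : ℝ) < 1 + t ^ 2 := by positivity
  have h1 : cexp ((Real.arctan t : ℝ) * I) = (1 + t * I) / (Real.sqrt (1 + t ^ 2) : ℝ) := by
    rw [Complex.exp_mul_I, ← Complex.ofReal_cos, ← Complex.ofReal_sin, Real.cos_arctan, Real.sin_arctan]
    push_cast
    ring
  have h2 : cexp ((2 * Real.arctan t : ℝ) * I) = cexp ((Real.arctan t : ℝ) * I) ^ 2 := by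
    rw [← Complex.exp_nat_mul]
    push_cast
    ring_nf
  have h3 : ((Real.sqrt (1 + t ^ 2) : ℝ) : ℂ) ^ 2 = 1 + (t : ℂ) ^ 2 := by
    rw [← Complex.ofReal_pow, Real.sq_sqrt h0.le]
    push_cast
    ring
  rw [h2, h1, div_pow, E, h3]

/-- the angles of the vertices in the first quadrant -/
noncomputable def ang (M i : ℕ) : ℝ := 2 * Real.arctan ((i : ℝ) / M)

theorem ang_zero (M : ℕ) : ang M 0 = 0 := by simp [ang]

theorem ang_self {M : ℕ} (hM : 0 < M) : ang M M = π / 2 := by
  unfold ang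
  rw [div_self (by positivity), Real.arctan_one]
  ring

theorem ang_step {M : ℕ} (hM : 0 < M) (i : ℕ) : ang M (i + 1) - ang M i ≤ 2 / M ∧ 0 ≤ ang M (i + 1) - ang M i := by
  unfold ang
  have hM' : (0 : ℝ) < M := by exact_mod_cast hM
  have hle : (i : ℝ) / M ≤ ((i + 1 : ℕ) : ℝ) / M := by
    apply div_le_div_of_nonneg_right _ hM'.le
    push_cast
    linarith
  have h1 : Real.arctan ((i : ℝ) / M) ≤ Real.arctan (((i + 1 : ℕ) : ℝ) / M) := Real.arctan_mono hle
  have h2 : Real.arctan (((i + 1 : ℕ) : ℝ) / M) - Real.arctan ((i : ℝ) / M) ≤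
      ((i + 1 : ℕ) : ℝ) / M - (i : ℝ) / M := by
    have hanti : AntitoneOn (fun x => Real.arctan x - x) univ := by
      apply antitoneOn_of_deriv_nonpos convex_univ
      · exact (Real.continuous_arctan.sub continuous_id).continuousOn
      · exact (Real.differentiable_arctan.sub differentiable_id).differentiableOn
      · intro x _
        have hd : HasDerivAt (fun x => Real.arctan x - x) (1 / (1 + x ^ 2) - 1) x :=
          (Real.hasDerivAt_arctan x).sub (hasDerivAt_id x)
        rw [hd.deriv]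
        have : 1 / (1 + x ^ 2) ≤ 1 := by
          rw [div_le_one (by positivity)]
          nlinarith [sq_nonneg x]
        linarith
    have := hanti (mem_univ _) (mem_univ _) hle
    simp only at this
    linarith
  have h3 : ((i + 1 : ℕ) : ℝ) / M - (i : ℝ) / M = 1 / M := by
    push_cast
    field_simp
    ring
  constructor
  · have : (2 : ℝ) / M = 2 * (1 / M) := by ring
    rw [this]
    linarith
  · linarith

/-- every angle of the first quadrant is between two vertices -/
theorem exists_ang {M : ℕ} (hM : 0 < M) {θ : ℝ} (h0 : 0 ≤ θ) (h1 : θ ≤ π / 2) :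
    ∃ i < M, ang M i ≤ θ ∧ θ ≤ ang M (i + 1) := by
  by_contra hcon
  push Not at hcon
  have : ∀ i ≤ M, ang M i ≤ θ := by
    intro i
    induction i with
    | zero =>
      intro _
      rw [ang_zero]
      exact h0
    | succ i ih =>
      intro hi
      exact (hcon i (by omega) (ih (by omega))).le
  have h2 := hcon (M - 1) (by omega) (this (M - 1) (by omega))
  rw [Nat.sub_add_cancel hM, ang_self hM] at h2
  linarith

end Pool.Agent.BL0
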