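import Pool.Agent.Lib.BNR.Seq
import Pool.Agent.Lib.BL0.Seg

/-!
# BL0.Dif: dependence of the coefficients of level zero on `l` and on the point of the circle
-/

set_option autoImplicit false

open Complex Set
open scoped Real ComplexConjugate
open Pool.Agent.P187f6b Pool.Agent.P187w Pool.Agent.BNR

namespace Pool.Agent.BL0

/-- the value of `zz l ζ n` at `ζ = 1` -/
noncomputable def Zr (l : ℝ) : ℕ → ℝ
  | 0 => 1
  | n + 1 => Zr l n + (n + 2) * l ^ (n + 1) + (n + 1) * l ^ n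

/-- the bound of the coefficient number `n` -/
noncomputable def Pr (d l : ℝ) (n : ℕ) : ℝ := l ^ n + d * Zr l n

/-- the coefficient number `n` at level zero -/
noncomputable def cc (d l : ℝ) (ζ : ℂ) (n : ℕ) : ℂ := (l : ℂ) ^ n - d * zz l ζ n

/-- the bound of the sum of all `Pr d l n * R ^ n` -/
noncomputable def Wf (d l R : ℝ) : ℝ := 1 / (1 - l * R) + d * ((1 + R) / ((1 - R) * (1 - l * R) ^ 2))

theorem Zr_nonneg {l : ℝ} (hl : 0 ≤ l) (n : ℕ) : 0 ≤ Zr l n := by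
  induction n with
  | zero => simp [Zr]
  | succ n ih =>
    rw [Zr]
    positivity

theorem Zr_mono {l l' : ℝ} (hl : 0 ≤ l) (h : l ≤ l') (n : ℕ) : Zr l n ≤ Zr l' n := by
  induction n with
  | zero => simp [Zr]
  | succ n ih =>
    rw [Zr, Zr]
    have h1 : l ^ (n + 1) ≤ l' ^ (n + 1) := pow_le_pow_left₀ hl h _
    have h2 : l ^ n ≤ l' ^ n := pow_le_pow_left₀ hl h _
    have h3 : ((n : ℝ) + 2) * l ^ (n + 1) ≤ (n + 2) * l' ^ (n + 1) := mul_le_mul_of_nonneg_left h1 (by positivity)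
    have h4 : ((n : ℝ) + 1) * l ^ n ≤ (n + 1) * l' ^ n := mul_le_mul_of_nonneg_left h2 (by positivity)
    linarith

theorem Pr_nonneg {d l : ℝ} (hd : 0 ≤ d) (hl : 0 ≤ l) (n : ℕ) : 0 ≤ Pr d l n := by
  have := Zr_nonneg hl n
  unfold Pr
  positivity

theorem Pr_mono {d l l' : ℝ} (hd : 0 ≤ d) (hl : 0 ≤ l) (h : l ≤ l') (n : ℕ) : Pr d l n ≤ Pr d l' n := by
  unfold Pr
  have h1 : l ^ n ≤ l' ^ n := pow_le_pow_left₀ hl h _
  have h2 := mul_le_mul_of_nonneg_left (Zr_mono hl h n) hd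
  linarith

theorem zz_norm_le {l : ℝ} (hl : 0 ≤ l) {ζ : ℂ} (hζ : ‖ζ‖ = 1) (n : ℕ) : ‖zz (l : ℂ) ζ n‖ ≤ Zr l n := by
  induction n with
  | zero => simp [zz, Zr]
  | succ n ih =>
    rw [zz, Zr]
    have e1 : ‖((n : ℂ) + 2) * (l : ℂ) ^ (n + 1)‖ = (n + 2) * l ^ (n + 1) := by
      have : ((n : ℂ) + 2) * (l : ℂ) ^ (n + 1) = (((n + 2) * l ^ (n + 1) : ℝ) : ℂ) := by push_cast; ring
      rw [this, Complex.norm_real, Real.norm_eq_abs, abs_of_nonneg (by positivity)]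
    have e2 : ‖((n : ℂ) + 1) * (l : ℂ) ^ n‖ = (n + 1) * l ^ n := by
      have : ((n : ℂ) + 1) * (l : ℂ) ^ n = (((n + 1) * l ^ n : ℝ) : ℂ) := by push_cast; ring
      rw [this, Complex.norm_real, Real.norm_eq_abs, abs_of_nonneg (by positivity)]
    refine (norm_add_le _ _).trans ?_
    refine (add_le_add (norm_add_le _ _) le_rfl).trans ?_
    rw [norm_mul, norm_mul ζ (_ * _), hζ, e1, e2, one_mul, one_mul]
    linarith

theorem zz_diff {l l' : ℝ} (hl : 0 ≤ l) (h : l ≤ l') {ζ : ℂ} (hζ : ‖ζ‖ = 1) (n : ℕ) :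
    ‖zz (l' : ℂ) ζ n - zz (l : ℂ) ζ n‖ ≤ Zr l' n - Zr l n := by
  induction n with
  | zero => simp [zz, Zr]
  | succ n ih =>
    rw [zz, zz, Zr, Zr]
    have h1 : l ^ (n + 1) ≤ l' ^ (n + 1) := pow_le_pow_left₀ hl h _
    have h2 : l ^ n ≤ l' ^ n := pow_le_pow_left₀ hl h _
    have e0 : ζ * zz (l' : ℂ) ζ n + (n + 2) * (l' : ℂ) ^ (n + 1) + ζ * ((n + 1) * (l' : ℂ) ^ n) -
        (ζ * zz (l : ℂ) ζ n + (n + 2) * (l : ℂ) ^ (n + 1) + ζ * ((n + 1) * (l : ℂ) ^ n)) =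
        ζ * (zz (l' : ℂ) ζ n - zz (l : ℂ) ζ n) + (((n + 2) * (l' ^ (n + 1) - l ^ (n + 1)) : ℝ) : ℂ) +
        ζ * (((n + 1) * (l' ^ n - l ^ n) : ℝ) : ℂ) := by
      push_cast
      ring
    rw [e0]
    refine (norm_add_le _ _).trans ?_
    refine (add_le_add (norm_add_le _ _) le_rfl).trans ?_
    rw [norm_mul, norm_mul ζ (_ : ℂ), hζ, Complex.norm_real, Complex.norm_real, Real.norm_eq_abs, Real.norm_eq_abs,
      abs_of_nonneg (mul_nonneg (by positivity) (by linarith)),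
      abs_of_nonneg (mul_nonneg (by positivity) (by linarith)), one_mul, one_mul]
    linarith

theorem cc_norm_le {d l : ℝ} (hd : 0 ≤ d) (hl : 0 ≤ l) {ζ : ℂ} (hζ : ‖ζ‖ = 1) (n : ℕ) :
    ‖cc d l ζ n‖ ≤ Pr d l n := by
  unfold cc Pr
  refine (norm_sub_le _ _).trans ?_
  rw [norm_mul, norm_pow, Complex.norm_real, Complex.norm_real, Real.norm_eq_abs, Real.norm_eq_abs,
    abs_of_nonneg hd, abs_of_nonneg hl]
  have := mul_le_mul_of_nonneg_left (zz_norm_le hl hζ n) hd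
  linarith

theorem cc_diff {d l l' : ℝ} (hd : 0 ≤ d) (hl : 0 ≤ l) (h : l ≤ l') {ζ : ℂ} (hζ : ‖ζ‖ = 1) (n : ℕ) :
    ‖cc d l' ζ n‖ ≤ ‖cc d l ζ n‖ + (Pr d l' n - Pr d l n) := by
  have h1 : l ^ n ≤ l' ^ n := pow_le_pow_left₀ hl h _
  have e : cc d l' ζ n = cc d l ζ n + (((l' ^ n - l ^ n : ℝ) : ℂ) - d * (zz (l' : ℂ) ζ n - zz (l : ℂ) ζ n)) := by
    unfold cc
    push_cast
    ring
  rw [e]
  refine (norm_add_le _ _).trans (add_le_add le_rfl ?_)
  refine (norm_sub_le _ _).trans ?_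
  rw [norm_mul, Complex.norm_real, Complex.norm_real, Real.norm_eq_abs, Real.norm_eq_abs, abs_of_nonneg hd,
    abs_of_nonneg (by linarith)]
  unfold Pr
  have := mul_le_mul_of_nonneg_left (zz_diff hl h hζ n) hd
  linarith

theorem sq_geo {x : ℝ} (h0 : 0 ≤ x) (h1 : x < 1) (M : ℕ) :
    ∑ n ∈ Finset.range M, ((n : ℝ) + 1) * x ^ n ≤ 1 / (1 - x) ^ 2 := by
  have h2 := SeqAux.geo_le h0 h1 M
  have h3 := SeqAux.geo1_le h0 h1 M
  have e : ∑ n ∈ Finset.range M, ((n : ℝ) + 1) * x ^ n =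
      ∑ n ∈ Finset.range M, (n : ℝ) * x ^ n + ∑ n ∈ Finset.range M, x ^ n := by
    rw [← Finset.sum_add_distrib]
    exact Finset.sum_congr rfl fun n _ => by ring
  have hx : 0 < 1 - x := by linarith
  have h6 : x / (1 - x) ^ 2 + 1 / (1 - x) = 1 / (1 - x) ^ 2 := by
    field_simp
    ring
  rw [e, ← h6]
  linarith

theorem Z_sum {l R : ℝ} (hl : 0 ≤ l) (hR0 : 0 ≤ R) (hR1 : R < 1) (hlR : l * R < 1) (M : ℕ) :
    ∑ n ∈ Finset.range M, Zr l n * R ^ n ≤ (1 + R) / ((1 - R) * (1 - l * R) ^ 2) := by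
  have hR' : 0 < 1 - R := by linarith
  have hx' : 0 < 1 - l * R := by linarith
  have h1 := Finset.sum_range_succ' (fun n => Zr l n * R ^ n) M
  have h2 : ∑ n ∈ Finset.range M, Zr l (n + 1) * R ^ (n + 1) =
      R * ∑ n ∈ Finset.range M, Zr l n * R ^ n +
      ∑ n ∈ Finset.range M, (((n + 1 : ℕ) : ℝ) + 1) * (l * R) ^ (n + 1) +
      R * ∑ n ∈ Finset.range M, ((n : ℝ) + 1) * (l * R) ^ n := by
    rw [Finset.mul_sum, Finset.mul_sum, ← Finset.sum_add_distrib, ← Finset.sum_add_distrib]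
    refine Finset.sum_congr rfl fun n _ => ?_
    rw [Zr]
    push_cast
    ring
  have h3 := Finset.sum_range_succ' (fun n : ℕ => ((n : ℝ) + 1) * (l * R) ^ n) M
  have h4 := sq_geo (by positivity) hlR (M + 1)
  have h5 := sq_geo (by positivity) hlR M
  have h6 : ∑ n ∈ Finset.range (M + 1), Zr l n * R ^ n =
      ∑ n ∈ Finset.range M, Zr l n * R ^ n + Zr l M * R ^ M := Finset.sum_range_succ _ _
  have h7 : 0 ≤ Zr l M * R ^ M := mul_nonneg (Zr_nonneg hl M) (by positivity)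
  rw [h2] at h1
  rw [le_div_iff₀ (by positivity)]
  set A := ∑ n ∈ Finset.range M, Zr l n * R ^ n with hA
  set S1 := ∑ n ∈ Finset.range M, (((n + 1 : ℕ) : ℝ) + 1) * (l * R) ^ (n + 1) with hS1
  set S2 := ∑ n ∈ Finset.range M, ((n : ℝ) + 1) * (l * R) ^ n with hS2
  have h8 : Zr l 0 * R ^ 0 = 1 := by simp [Zr]
  rw [h8] at h1
  have h9 : S1 + 1 ≤ 1 / (1 - l * R) ^ 2 := by
    have : ∑ n ∈ Finset.range (M + 1), ((n : ℝ) + 1) * (l * R) ^ n = S1 + 1 := by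
      rw [h3, hS1]
      simp
    linarith
  have h10 : A * (1 - R) ≤ 1 / (1 - l * R) ^ 2 * (1 + R) := by
    have := mul_le_mul_of_nonneg_left h5 hR0
    nlinarith
  calc A * ((1 - R) * (1 - l * R) ^ 2) = A * (1 - R) * (1 - l * R) ^ 2 := by ring
    _ ≤ 1 / (1 - l * R) ^ 2 * (1 + R) * (1 - l * R) ^ 2 := mul_le_mul_of_nonneg_right h10 (by positivity)
    _ = 1 + R := by field_simp

theorem P_sum {d l R : ℝ} (hd : 0 ≤ d) (hl : 0 ≤ l) (hR0 : 0 ≤ R) (hR1 : R < 1) (hlR : l * R < 1) (M : ℕ) :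
    ∑ n ∈ Finset.range M, Pr d l n * R ^ n ≤ Wf d l R := by
  have e : ∑ n ∈ Finset.range M, Pr d l n * R ^ n =
      ∑ n ∈ Finset.range M, (l * R) ^ n + d * ∑ n ∈ Finset.range M, Zr l n * R ^ n := by
    rw [Finset.mul_sum, ← Finset.sum_add_distrib]
    refine Finset.sum_congr rfl fun n _ => ?_
    unfold Pr
    ring
  rw [e]
  unfold Wf
  have h1 := SeqAux.geo_le (mul_nonneg hl hR0) hlR M
  have h2 := mul_le_mul_of_nonneg_left (Z_sum hl hR0 hR1 hlR M) hd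
  linarith

/-- interpolation between two points of the circle -/
theorem cc_seg {d l : ℝ} (hd : 0 ≤ d) (hl0 : 0 ≤ l) (hl1 : l < 1) {s α β θ : ℝ} (hs0 : 0 ≤ s) (hs1 : s ≤ 1)
    (hθ : θ = s * α + (1 - s) * β) (n : ℕ) :
    ‖cc d l (cexp (θ * I)) n‖ ≤ s * ‖cc d l (cexp (α * I)) n‖ + (1 - s) * ‖cc d l (cexp (β * I)) n‖ +
      d * ((n : ℝ) ^ 2 * (β - α) ^ 2 / (4 * (1 - l) ^ 2)) := by
  have hs1' : 0 ≤ 1 - s := by linarith
  have hl' : 0 < 1 - l := by linarith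
  have hpow : ∀ (φ : ℝ) (k : ℕ), cexp (φ * I) ^ k = cexp ((k * φ : ℝ) * I) := by
    intro φ k
    rw [← Complex.exp_nat_mul]
    push_cast
    ring_nf
  -- the difference of the values of `zz`
  have hz : ‖zz (l : ℂ) (cexp (θ * I)) n - (s * zz (l : ℂ) (cexp (α * I)) n + (1 - s : ℝ) * zz (l : ℂ) (cexp (β * I)) n)‖ ≤
      (n : ℝ) ^ 2 * (β - α) ^ 2 / (4 * (1 - l) ^ 2) := by
    rw [← cv_zz, ← cv_zz, ← cv_zz]
    unfold cv
    rw [Finset.mul_sum, Finset.mul_sum, ← Finset.sum_add_distrib, ← Finset.sum_sub_distrib]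
    have hterm : ∀ k ∈ Finset.range (n + 1),
        ‖(((n - k : ℕ) : ℂ) + 1) * (l : ℂ) ^ (n - k) * hc k (cexp (θ * I)) -
          (s * ((((n - k : ℕ) : ℂ) + 1) * (l : ℂ) ^ (n - k) * hc k (cexp (α * I))) +
          (1 - s : ℝ) * ((((n - k : ℕ) : ℂ) + 1) * (l : ℂ) ^ (n - k) * hc k (cexp (β * I))))‖ ≤
        (((n - k : ℕ) : ℝ) + 1) * l ^ (n - k) * ((n : ℝ) ^ 2 * (β - α) ^ 2 / 4) := by
      intro k hk
      have hkn : k ≤ n := Nat.lt_succ_iff.1 (Finset.mem_range.1 hk)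
      have e2 : (((n - k : ℕ) : ℂ) + 1) * (l : ℂ) ^ (n - k) = (((((n - k : ℕ) : ℝ) + 1) * l ^ (n - k) : ℝ) : ℂ) := by
        push_cast
        ring
      have e3 : (((n - k : ℕ) : ℂ) + 1) * (l : ℂ) ^ (n - k) * hc k (cexp (θ * I)) -
          (s * ((((n - k : ℕ) : ℂ) + 1) * (l : ℂ) ^ (n - k) * hc k (cexp (α * I))) +
          (1 - s : ℝ) * ((((n - k : ℕ) : ℂ) + 1) * (l : ℂ) ^ (n - k) * hc k (cexp (β * I)))) =
          (((((n - k : ℕ) : ℝ) + 1) * l ^ (n - k) : ℝ) : ℂ) * (hc k (cexp (θ * I)) -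
            (s * hc k (cexp (α * I)) + (1 - s : ℝ) * hc k (cexp (β * I)))) := by
        rw [e2]
        ring
      rw [e3, norm_mul, Complex.norm_real, Real.norm_eq_abs, abs_of_nonneg (by positivity)]
      apply mul_le_mul_of_nonneg_left _ (by positivity)
      unfold hc
      split_ifs with h0
      · have : (1 : ℂ) - (s * 1 + (1 - s : ℝ) * 1) = 0 := by push_cast; ring
        rw [this, norm_zero]
        positivity
      · rw [hpow, hpow, hpow]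
        have h1 := seg k hs0 hs1 hθ
        have e4 : 2 * cexp ((k * θ : ℝ) * I) - (s * (2 * cexp ((k * α : ℝ) * I)) + (1 - s : ℝ) * (2 * cexp ((k * β : ℝ) * I))) =
            2 * (cexp ((k * θ : ℝ) * I) - (s * cexp ((k * α : ℝ) * I) + (1 - s : ℝ) * cexp ((k * β : ℝ) * I))) := by ring
        rw [e4, norm_mul]
        have e5 : ‖(2 : ℂ)‖ = 2 := by norm_num
        rw [e5]
        have hk2 : (k : ℝ) ^ 2 ≤ (n : ℝ) ^ 2 := by
          have : (k : ℝ) ≤ n := by exact_mod_cast hkn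
          exact pow_le_pow_left₀ (by positivity) this 2
        have h3 : (k : ℝ) ^ 2 * (β - α) ^ 2 ≤ (n : ℝ) ^ 2 * (β - α) ^ 2 :=
          mul_le_mul_of_nonneg_right hk2 (sq_nonneg _)
        linarith
    refine (norm_sum_le _ _).trans ((Finset.sum_le_sum hterm).trans ?_)
    rw [← Finset.sum_mul]
    have h2 := Finset.sum_range_reflect (fun j => ((j : ℝ) + 1) * l ^ j) (n + 1)
    simp only [Nat.add_sub_cancel] at h2
    rw [h2]
    have h3 := sq_geo hl0 hl1 (n + 1)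
    have h4 := mul_le_mul_of_nonneg_right h3 (show 0 ≤ (n : ℝ) ^ 2 * (β - α) ^ 2 / 4 by positivity)
    refine h4.trans (le_of_eq ?_)
    field_simp
  have e : cc d l (cexp (θ * I)) n = s * cc d l (cexp (α * I)) n + (1 - s : ℝ) * cc d l (cexp (β * I)) n -
      d * (zz (l : ℂ) (cexp (θ * I)) n - (s * zz (l : ℂ) (cexp (α * I)) n + (1 - s : ℝ) * zz (l : ℂ) (cexp (β * I)) n)) := by
    unfold cc
    push_cast
    ring
  rw [e]
  refine (norm_sub_le _ _).trans ?_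
  refine (add_le_add (norm_add_le _ _) le_rfl).trans ?_
  rw [norm_mul, norm_mul, norm_mul, Complex.norm_real, Complex.norm_real, Complex.norm_real, Real.norm_eq_abs,
    Real.norm_eq_abs, Real.norm_eq_abs, abs_of_nonneg hs0, abs_of_nonneg hs1', abs_of_nonneg hd]
  have := mul_le_mul_of_nonneg_left hz hd
  linarith

/-- complex conjugation -/
theorem zz_conj (l : ℝ) (ζ : ℂ) (n : ℕ) : zz (l : ℂ) (conj ζ) n = conj (zz (l : ℂ) ζ n) := by
  induction n with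
  | zero => simp [zz]
  | succ n ih =>
    rw [zz, zz, ih]
    simp only [map_add, map_mul, map_pow, conj_ofReal, map_natCast, map_one]
    have : conj (2 : ℂ) = 2 := by
      have : (2 : ℂ) = ((2 : ℝ) : ℂ) := by norm_num
      rw [this, conj_ofReal]
    rw [this]

theorem cc_conj (d l : ℝ) (ζ : ℂ) (n : ℕ) : ‖cc d l (conj ζ) n‖ = ‖cc d l ζ n‖ := by
  have : cc d l (conj ζ) n = conj (cc d l ζ n) := by
    unfold cc
    rw [zz_conj]
    simp only [map_sub, map_mul, map_pow, conj_ofReal]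
  rw [this, norm_conj]

/-- rotation -/
theorem zz_rot (l : ℝ) {u : ℂ} (hu : u ≠ 0) (ζ : ℂ) (n : ℕ) :
    zz (l * u) ζ n = u ^ n * zz (l : ℂ) (ζ / u) n := by
  induction n with
  | zero => simp [zz]
  | succ n ih =>
    rw [zz, zz, ih]
    field_simp
    ring

end Pool.Agent.BL0
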